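import Pool.Agent.Work.MP_96f494_lc.Prob

/-!
Almost every `σ` in `Gal(ℚ^tr/ℚ)` fixes `2 cos (2π/p)` for infinitely many primes `p`, and moves
the square root of some prime.
-/

namespace Pool.Agent.Work.MP_96f494_lc

open Polynomial IntermediateField MeasureTheory Filter

lemma orbit_ncard_le {p : ℕ} (hp : p.Prime) :
    (MulAction.orbit (Qtr ≃ₐ[ℚ] Qtr) (cc p)).ncard ≤ p := by
  classical
  have h1 : emb '' (MulAction.orbit (Qtr ≃ₐ[ℚ] Qtr) (cc p)) ⊆
      (((nthRoots p (1 : ℂ)).toFinset.image (fun z : ℂ => 2 * z.re) : Finset ℝ) : Set ℝ) := by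
    rintro _ ⟨_, ⟨g, rfl⟩, rfl⟩
    obtain ⟨z, hz, hz2⟩ := cc_conj hp.pos g
    rw [Finset.mem_coe, Finset.mem_image]
    refine ⟨z, ?_, hz2.symm⟩
    rw [Multiset.mem_toFinset, mem_nthRoots hp.pos]
    exact hz.pow_eq_one
  have h2 := Set.ncard_le_ncard h1 (Finset.finite_toSet _)
  rw [Set.ncard_image_of_injective _ emb_injective, Set.ncard_coe_finset] at h2
  refine h2.trans (Finset.card_image_le.trans ((Multiset.toFinset_card_le _).trans ?_))
  exact card_nthRoots p 1

lemma haar_ev_ge {p : ℕ} (hp : p.Prime) : (1 : ℝ) / p ≤ (haarG (ev p)).toReal := by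
  have e : haarG (ev p) = ((MulAction.orbit (Qtr ≃ₐ[ℚ] Qtr) (cc p)).ncard : ENNReal)⁻¹ := by
    rw [← measure_stab_one]
    congr 1
    ext g
    simp [ev, hp]
  rw [e, ENNReal.toReal_inv, ENNReal.toReal_natCast, one_div]
  have h1 : (0 : ℝ) < (MulAction.orbit (Qtr ≃ₐ[ℚ] Qtr) (cc p)).ncard := by
    have : (MulAction.orbit (Qtr ≃ₐ[ℚ] Qtr) (cc p)).ncard ≠ 0 :=
      Set.ncard_ne_zero_of_mem (MulAction.mem_orbit_self (cc p)) (orbit_finite _)
    exact_mod_cast Nat.pos_of_ne_zero this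
  exact inv_anti₀ h1 (by exact_mod_cast orbit_ncard_le hp)

lemma sum_ev : ∑' n, haarG (ev n) = ⊤ := by
  by_contra hne
  have h1 := ENNReal.summable_toReal hne
  apply not_summable_one_div_on_primes
  refine Summable.of_nonneg_of_le ?_ ?_ h1
  · intro n
    apply Set.indicator_nonneg
    intro m _
    positivity
  · intro n
    by_cases hn : n.Prime
    · rw [Set.indicator_of_mem (show n ∈ {p | p.Prime} from hn)]
      exact haar_ev_ge hn
    · rw [Set.indicator_of_notMem (show n ∉ {p | p.Prime} from hn)]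
      exact ENNReal.toReal_nonneg

/-- Almost every `σ` fixes `2 cos (2π/p)` for infinitely many primes `p`. -/
theorem ae_freq : ∀ᵐ σ ∂haarG, ∀ N : ℕ, ∃ p, N ≤ p ∧ p.Prime ∧ σ (cc p) = cc p := by
  have h1 := ProbabilityTheory.measure_limsup_eq_one ev_meas ev_indep sum_ev
  have h2 : limsup ev atTop ∈ ae haarG := by
    rw [mem_ae_iff_prob_eq_one (MeasurableSet.measurableSet_limsup ev_meas)]
    exact h1
  filter_upwards [h2] with σ hσ N
  rw [mem_limsup_iff_frequently_mem] at hσ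
  obtain ⟨p, hp, hp2⟩ := (frequently_atTop.1 hσ) N
  exact ⟨p, hp, hp2.1, hp2.2⟩

/-! ### Square roots of primes -/

lemma exists_sq (l : ℕ) : ∃ z : Qtr, z ^ 2 = (l : Qtr) := by
  apply exists_sqrt
  intro g
  rw [map_natCast, map_natCast]
  positivity

/-- A square root of `l`. -/
noncomputable def sq (l : ℕ) : Qtr := (exists_sq l).choose

lemma sq_sq (l : ℕ) : sq l ^ 2 = (l : Qtr) := (exists_sq l).choose_spec

lemma gal_sq (g : Qtr ≃ₐ[ℚ] Qtr) (l : ℕ) : g (sq l) = sq l ∨ g (sq l) = -sq l := by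
  have : (g (sq l)) ^ 2 = (sq l) ^ 2 := by rw [← map_pow, sq_sq, map_natCast]
  exact sq_eq_sq_iff_eq_or_eq_neg.1 this

lemma sq_integral (l : ℕ) : IsIntegral ℤ (sq l) := by
  have : IsIntegral ℤ (sq l ^ 2) := by
    rw [sq_sq]
    exact_mod_cast isIntegral_algebraMap (R := ℤ) (A := Qtr) (x := (l : ℤ))
  exact this.of_pow (by norm_num)

lemma exists_move {l l' : ℕ} (hl : l.Prime) (hl' : l'.Prime) (hne : l ≠ l') :
    ∃ g : Qtr ≃ₐ[ℚ] Qtr, g (sq l * sq l') ≠ sq l * sq l' := by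
  by_contra hcon
  push Not at hcon
  have h1 := (InfiniteGalois.mem_bot_iff_fixed (k := ℚ) (K := Qtr) (sq l * sq l')).2 hcon
  obtain ⟨q, hq⟩ := IntermediateField.mem_bot.1 h1
  have h2 : (algebraMap ℚ Qtr) (q * q) = (algebraMap ℚ Qtr) (((l * l' : ℕ) : ℚ)) := by
    rw [map_mul, hq, map_natCast]
    push_cast
    rw [← sq_sq l, ← sq_sq l']
    ring
  have h3 := (algebraMap ℚ Qtr).injective h2
  have h4 : IsSquare (((l * l' : ℕ) : ℚ)) := ⟨q, h3.symm⟩
  rw [Rat.isSquare_natCast_iff] at h4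
  obtain ⟨r, hr⟩ := h4
  have h5 : l ∣ r := by
    have : l ∣ r * r := ⟨l', hr.symm⟩
    exact (hl.dvd_mul.1 this).elim id id
  obtain ⟨s, rfl⟩ := h5
  have h6 : l' = l * (s * s) := by
    have := hl.pos
    apply Nat.eq_of_mul_eq_mul_left this
    rw [hr]; ring
  have h7 : l ∣ l' := ⟨_, h6⟩
  exact hne ((Nat.prime_dvd_prime_iff_eq hl hl').1 h7)

/-- Almost every `σ` moves the square root of some prime. -/
theorem ae_move : ∀ᵐ σ ∂haarG, ∃ l : ℕ, l.Prime ∧ σ (sq l) = -sq l := by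
  classical
  have key : haarG {σ | ∀ l : ℕ, l.Prime → σ (sq l) = sq l} = 0 := by
    by_contra hpos
    set ε := haarG {σ : Qtr ≃ₐ[ℚ] Qtr | ∀ l : ℕ, l.Prime → σ (sq l) = sq l} with hε
    obtain ⟨N, hN⟩ := ENNReal.exists_nat_gt (ENNReal.inv_ne_top.2 hpos)
    obtain ⟨S, hSp, hSc⟩ := Nat.infinite_setOfPred_prime.exists_subset_card_eq (2 ^ N + 1)
    have h1 : ε ≤ haarG {g | ∀ i : {p // p ∈ S}, g ((fun i : {p // p ∈ S} => sq (i : ℕ)) i)
        = (fun i : {p // p ∈ S} => sq (i : ℕ)) i} := by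
      apply measure_mono
      intro g hg i
      exact hg i (hSp i.2)
    rw [measure_stab] at h1
    set O := MulAction.orbit (Qtr ≃ₐ[ℚ] Qtr) (fun i : {p // p ∈ S} => sq (i : ℕ)) with hO
    have h2 : (O.ncard : ENNReal) < N := by
      refine lt_of_le_of_lt ?_ hN
      rw [← inv_inv (O.ncard : ENNReal)]
      exact ENNReal.inv_le_inv.2 h1
    have h3 : O.ncard < N := by exact_mod_cast h2
    have hOfin : O.Finite := by
      refine (Set.Finite.pi' (t := fun i : {p // p ∈ S} => MulAction.orbit (Qtr ≃ₐ[ℚ] Qtr) (sq (i : ℕ)))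
        (fun i => orbit_finite (sq (i : ℕ)))).subset ?_
      rintro _ ⟨g, rfl⟩ i
      exact ⟨g, rfl⟩
    -- injection from S into the power set of O
    have h4 : S.card ≤ 2 ^ O.ncard := by
      have hc : (hOfin.toFinset).powerset.card = 2 ^ O.ncard := by
        rw [Finset.card_powerset, Set.ncard_eq_toFinset_card _ hOfin]
      rw [← hc, ← Finset.card_attach]
      refine Finset.card_le_card_of_injOn
        (fun i => hOfin.toFinset.filter fun y => y i = sq (i : ℕ)) ?_ ?_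
      · intro i _
        rw [Finset.mem_coe, Finset.mem_powerset]
        exact Finset.filter_subset _ _
      · intro i _ j _ hij
        by_contra hne
        obtain ⟨g, hg⟩ := exists_move (hSp i.2) (hSp j.2) (fun h => hne (Subtype.ext h))
        have hmem : (g • (fun i : {p // p ∈ S} => sq (i : ℕ))) ∈ O := ⟨g, rfl⟩
        have h5 := congrArg (fun s => (g • (fun i : {p // p ∈ S} => sq (i : ℕ))) ∈ s) hij
        simp only [Finset.mem_filter, Set.Finite.mem_toFinset, hmem, true_and, eq_iff_iff] at h5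
        have e1 : (g • (fun i : {p // p ∈ S} => sq (i : ℕ))) i = g (sq (i : ℕ)) := rfl
        have e2 : (g • (fun i : {p // p ∈ S} => sq (i : ℕ))) j = g (sq (j : ℕ)) := rfl
        rw [e1, e2] at h5
        apply hg
        rw [map_mul]
        rcases gal_sq g i with h6 | h6
        · rw [h5.1 h6, h6]
        · rcases gal_sq g j with h7 | h7
          · rw [h5.2 h7, h7]
          · rw [h6, h7]; ring
    rw [hSc] at h4
    have h5 : 2 ^ O.ncard ≤ 2 ^ N := Nat.pow_le_pow_right (by norm_num) h3.le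
    omega
  have h2 : ∀ᵐ σ ∂haarG, ¬ ∀ l : ℕ, l.Prime → σ (sq l) = sq l := by
    rw [ae_iff]
    simpa using key
  filter_upwards [h2] with σ hσ
  push Not at hσ
  obtain ⟨l, hl, hl2⟩ := hσ
  exact ⟨l, hl, (gal_sq σ l).resolve_left hl2⟩

end Pool.Agent.Work.MP_96f494_lc
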