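import Mathlib

/-!
Julia Robinson's coding of finite sets, in an abstract ring with real embeddings.
-/

namespace Pool.Agent.Work.MP_96f494_lc

section Abstract

variable {R : Type*} [CommRing R] {Γ : Type*} (φ : Γ → R →+* ℝ)

/-- Totally nonnegative. -/
def NN (x : R) : Prop := ∀ g, 0 ≤ φ g x

/-- The set coded by the parameters. -/
def TT (u v m h b t : R) : Prop :=
  NN φ t ∧ NN φ (b - t) ∧ ∃ x, NN φ x ∧ NN φ (u - v * x) ∧ (1 + m * (x + 1)) ∣ (h - t)

/-- The defining condition of the natural numbers. -/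
def NatCond (n : R) : Prop :=
  ∃ u v m h b : R, NN φ v ∧ v ≠ 0 ∧ NN φ (4 * v - u) ∧ 4 * v - u ≠ 0 ∧ NN φ (m - b) ∧
    m - b ≠ 0 ∧ TT φ u v m h b 0 ∧ ∀ t, TT φ u v m h b t → t = n ∨ TT φ u v m h b (t + 1)

variable {φ}

theorem natCond_imp [CharZero R] (inj : ∀ g z, φ g z = 0 → z = 0)
    (small : ∀ q : R, (∀ g, |φ g q| < 1) → q = 0)
    (fin : ∀ u v : R, (∀ g, 0 < φ g v) → (∀ g, φ g u < 4 * φ g v) →
      {x : R | ∀ g, 0 ≤ φ g x ∧ φ g v * φ g x ≤ φ g u}.Finite)
    (n : R) (hn : NatCond φ n) : ∃ k : ℕ, n = k := by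
  obtain ⟨u, v, m, h, b, hv, hv0, hu, hu0, hm, hm0, hT0, hT⟩ := hn
  have pos_of : ∀ z : R, NN φ z → z ≠ 0 → ∀ g, 0 < φ g z := by
    intro z hz hz0 g
    exact lt_of_le_of_ne (hz g) fun h => hz0 (inj g z h.symm)
  have hv' := pos_of v hv hv0
  have hu' := pos_of _ hu hu0
  have hm' := pos_of _ hm hm0
  have hfin := fin u v hv' (by
    intro g
    have := hu' g
    rw [map_sub, map_mul, map_ofNat] at this
    linarith)
  -- the coded set is finite
  have hTfin : {t : R | TT φ u v m h b t}.Finite := by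
    classical
    -- choose `x` for each `t`
    choose! f hf using fun (t : R) (ht : TT φ u v m h b t) => ht.2.2
    refine Set.Finite.of_finite_image (f := f) (hfin.subset ?_) ?_
    · rintro _ ⟨t, ht, rfl⟩
      obtain ⟨h1, h2, -⟩ := hf t ht
      intro g
      refine ⟨h1 g, ?_⟩
      have := h2 g
      rw [map_sub, map_mul] at this
      linarith
    · intro t ht t' ht' heq
      obtain ⟨h1, h2, h3⟩ := hf t ht
      obtain ⟨h1', h2', h3'⟩ := hf t' ht'
      have heq' : f t = f t' := heq
      rw [← heq'] at h3'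
      obtain ⟨w, hw⟩ := (dvd_sub h3' h3)
      have hw' : t - t' = (1 + m * (f t + 1)) * w := by rw [← hw]; ring
      have hw0 : w = 0 := by
        apply small
        intro g
        have e := congrArg (φ g) hw'
        rw [map_mul, map_sub, map_add, map_one, map_mul, map_add, map_one] at e
        have b1 := ht.1 g
        have b2 := ht.2.1 g
        have b3 := ht'.1 g
        have b4 := ht'.2.1 g
        have b5 := h1 g
        have b6 := hm' g
        rw [map_sub] at b2 b4 b6
        have b7 : |φ g t - φ g t'| ≤ φ g b := by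
          rw [abs_le]; constructor <;> linarith
        have b8 : φ g b < 1 + φ g m * (φ g (f t) + 1) := by
          have : 0 ≤ φ g m * φ g (f t) := mul_nonneg (by linarith) b5
          linarith
        have b9 : 0 < 1 + φ g m * (φ g (f t) + 1) := by linarith
        rw [e, abs_mul, abs_of_pos b9] at b7
        by_contra hcon
        push Not at hcon
        nlinarith
      rw [hw0, mul_zero, sub_eq_zero] at hw'
      exact hw'
  by_contra hcon
  push Not at hcon
  have hall : ∀ k : ℕ, TT φ u v m h b (k : R) := by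
    intro k
    induction k with
    | zero => simpa using hT0
    | succ k ih =>
      rcases hT _ ih with h1 | h1
      · exact absurd h1.symm (hcon k)
      · push_cast; exact h1
  have : (Set.range (fun k : ℕ => (k : R))).Finite :=
    hTfin.subset (by rintro _ ⟨k, rfl⟩; exact hall k)
  exact Set.infinite_range_of_injective Nat.cast_injective this

theorem natCond_of [Nonempty Γ] [CharZero R] [IsDomain R] (inj : ∀ g z, φ g z = 0 → z = 0)
    (small : ∀ q : R, (∀ g, |φ g q| < 1) → q = 0)
    (dvd : ∀ z : R, z ≠ 0 → ∃ c : ℕ, 0 < c ∧ z ∣ (c : R))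
    (fin : ∀ u v : R, (∀ g, 0 < φ g v) → (∀ g, φ g u < 4 * φ g v) →
      {x : R | ∀ g, 0 ≤ φ g x ∧ φ g v * φ g x ≤ φ g u}.Finite)
    (large : ∀ N : ℕ, ∃ u v : ℕ, 0 < v ∧ u < 4 * v ∧ ∃ s : Finset R, N ≤ s.card ∧
      ∀ x ∈ s, ∀ g, 0 ≤ φ g x ∧ v * φ g x ≤ u)
    (n : ℕ) : NatCond φ (n : R) := by
  classical
  obtain ⟨u, v, hv, huv, s, hs, hsx⟩ := large (n + 1)
  -- the full finite set
  have hfin := fin (u : R) (v : R) (by intro g; simpa using hv) (by
    intro g; rw [map_natCast, map_natCast]; exact_mod_cast huv)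
  obtain ⟨D, hD⟩ : ∃ D : Finset R, ∀ x, x ∈ D ↔ ∀ g, 0 ≤ φ g x ∧ φ g v * φ g x ≤ φ g u :=
    ⟨hfin.toFinset, fun x => by simp⟩
  have hDcard : n + 1 ≤ D.card := by
    refine le_trans hs (Finset.card_le_card ?_)
    intro x hx
    rw [hD]
    intro g
    rw [map_natCast, map_natCast]
    exact hsx x hx g
  -- an injection of {0..n} into D, extended to a labelling
  obtain ⟨f, hf, hfD⟩ : ∃ f : Fin (n + 1) → R, Function.Injective f ∧ ∀ i, f i ∈ D := by
    obtain ⟨t, htD, ht⟩ := Finset.exists_subset_card_eq hDcard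
    let e := (Finset.equivFinOfCardEq ht).symm
    exact ⟨fun i => (e i : R), fun i j hij => e.injective (Subtype.ext hij), fun i => htD (e i).2⟩
  -- the label of x
  obtain ⟨lab, hlab, hlabn⟩ : ∃ lab : R → ℕ, (∀ i, lab (f i) = i) ∧ ∀ x, lab x ≤ n := by
    refine ⟨fun x => if hx : ∃ i, f i = x then (hx.choose : ℕ) else 0, ?_, ?_⟩
    · intro i
      have hx : ∃ j, f j = f i := ⟨i, rfl⟩
      simp only [hx, dite_true]
      exact congrArg Fin.val (hf hx.choose_spec)
    · intro x
      dsimp only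
      split_ifs with hx
      · exact Nat.lt_succ_iff.1 hx.choose.isLt
      · exact Nat.zero_le _
  -- common multiple
  obtain ⟨M, hM, hMd⟩ : ∃ M : ℕ, 0 < M ∧ ∀ x ∈ D, ∀ y ∈ D, x ≠ y → (x - y) ∣ (M : R) := by
    have : ∀ p : R × R, ∃ c : ℕ, 0 < c ∧ (p.1 ≠ p.2 → (p.1 - p.2) ∣ (c : R)) := by
      intro p
      by_cases hp : p.1 = p.2
      · exact ⟨1, one_pos, fun h => absurd hp h⟩
      · obtain ⟨c, hc, hc2⟩ := dvd (p.1 - p.2) (sub_ne_zero.2 hp)
        exact ⟨c, hc, fun _ => hc2⟩
    choose c hc hc2 using this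
    refine ⟨∏ p ∈ D ×ˢ D, c p, Finset.prod_pos fun p _ => hc p, ?_⟩
    intro x hx y hy hxy
    refine (hc2 (x, y) hxy).trans ?_
    exact Nat.cast_dvd_cast (Finset.dvd_prod_of_mem _ (Finset.mem_product.2 ⟨hx, hy⟩))
  set m : ℕ := (n + 1) * M with hm
  have hmn : n < m := by
    rw [hm]
    nlinarith
  -- coprimality
  have hcop : ∀ x ∈ D, ∀ y ∈ D, x ≠ y →
      IsCoprime (1 + (m : R) * (x + 1)) (1 + (m : R) * (y + 1)) := by
    intro x hx y hy hxy
    obtain ⟨w, hw⟩ := hMd x hx y hy hxy
    have hmw : (m : R) = (x - y) * (w * (n + 1)) := by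
      rw [hm]; push_cast; rw [hw]; ring
    -- 1 = a - m (x+1);  m = (x - y) k, and (x - y) = (x-y)(a - m(x+1)), m (x-y) = a - b
    set a := 1 + (m : R) * (x + 1) with ha
    set b := 1 + (m : R) * (y + 1) with hb
    set k := w * ((n : R) + 1) with hk
    have e1 : a - b = m * (x - y) := by rw [ha, hb]; ring
    have e2 : (x - y) = (x - y) * a - (x + 1) * (a - b) := by
      rw [e1, ha]; ring
    have e3 : (m : R) = k * ((x - y) * a - (x + 1) * (a - b)) := by
      rw [← e2, hmw]; ring
    have e4 : (1 : R) = a - (x + 1) * (k * ((x - y) * a - (x + 1) * (a - b))) := by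
      rw [← e3, ha]; ring
    refine ⟨1 - (x + 1) * (k * ((x - y) - (x + 1))), -((x + 1) * (k * (x + 1))), ?_⟩
    calc (1 - (x + 1) * (k * ((x - y) - (x + 1)))) * a + -((x + 1) * (k * (x + 1))) * b
        = a - (x + 1) * (k * ((x - y) * a - (x + 1) * (a - b))) := by ring
      _ = 1 := e4.symm
  -- Chinese remainder theorem
  obtain ⟨h, hh⟩ : ∃ h : R, ∀ x ∈ D, (1 + (m : R) * (x + 1)) ∣ (h - (lab x : R)) := by
    obtain ⟨h, hh⟩ := Ideal.exists_forall_sub_mem_ideal
      (I := fun x : {x // x ∈ D} => Ideal.span {1 + (m : R) * ((x : R) + 1)}) (by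
        intro x y hxy
        show IsCoprime (Ideal.span _) (Ideal.span _)
        rw [Ideal.isCoprime_span_singleton_iff]
        exact hcop x x.2 y y.2 (fun h => hxy (Subtype.ext h)))
      (fun x => (lab (x : R) : R))
    exact ⟨h, fun x hx => Ideal.mem_span_singleton.1 (hh ⟨x, hx⟩)⟩
  -- the coded set is {0, …, n}
  have hTT : ∀ t : R, TT φ (u : R) (v : R) (m : R) h (n : R) t ↔ ∃ k : ℕ, k ≤ n ∧ t = k := by
    intro t
    constructor
    · rintro ⟨ht1, ht2, x, hx1, hx2, hx3⟩
      have hxD : x ∈ D := by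
        rw [hD]
        intro g
        refine ⟨hx1 g, ?_⟩
        have := hx2 g
        rw [map_sub, map_mul] at this
        linarith
      refine ⟨lab x, hlabn x, ?_⟩
      obtain ⟨w, hw⟩ := dvd_sub (hh x hxD) hx3
      have hw' : t - (lab x : R) = (1 + (m : R) * (x + 1)) * w := by rw [← hw]; ring
      have hw0 : w = 0 := by
        apply small
        intro g
        have e := congrArg (φ g) hw'
        rw [map_mul, map_sub, map_add, map_one, map_mul, map_add, map_one, map_natCast,
          map_natCast] at e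
        have b1 := ht1 g
        have b2 := ht2 g
        rw [map_sub, map_natCast] at b2
        have b3 : (0 : ℝ) ≤ lab x := by positivity
        have b4 : (lab x : ℝ) ≤ n := by exact_mod_cast hlabn x
        have b5 := hx1 g
        have b6 : (n : ℝ) < m := by exact_mod_cast hmn
        have b7 : |φ g t - lab x| ≤ n := by
          rw [abs_le]; constructor <;> linarith
        have b8 : (n : ℝ) < 1 + m * (φ g x + 1) := by
          have : (0 : ℝ) ≤ m * φ g x := by positivity
          linarith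
        have b9 : 0 < 1 + m * (φ g x + 1) := by positivity
        rw [e, abs_mul, abs_of_pos b9] at b7
        by_contra hcon
        push Not at hcon
        nlinarith
      rw [hw0, mul_zero, sub_eq_zero] at hw'
      exact hw'
    · rintro ⟨k, hk, rfl⟩
      refine ⟨fun g => by rw [map_natCast]; positivity, fun g => ?_, f ⟨k, by omega⟩, ?_, ?_, ?_⟩
      · rw [map_sub, map_natCast, map_natCast, sub_nonneg]
        exact_mod_cast hk
      · intro g
        exact ((hD _).1 (hfD ⟨k, by omega⟩) g).1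
      · intro g
        rw [map_sub, map_mul, sub_nonneg]
        exact ((hD _).1 (hfD ⟨k, by omega⟩) g).2
      · have := hh _ (hfD ⟨k, by omega⟩)
        rw [hlab] at this
        exact this
  refine ⟨u, v, m, h, n, ?_, ?_, ?_, ?_, ?_, ?_, ?_, ?_⟩
  · intro g
    rw [map_natCast]; positivity
  · exact_mod_cast hv.ne'
  · intro g
    rw [map_sub, map_mul, map_ofNat, map_natCast, map_natCast, sub_nonneg]
    exact_mod_cast huv.le
  · rw [sub_ne_zero]
    intro h0
    have : ((4 * v : ℕ) : R) = (u : ℕ) := by push_cast; exact h0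
    have := Nat.cast_injective this
    omega
  · intro g
    rw [map_sub, map_natCast, map_natCast, sub_nonneg]
    exact_mod_cast hmn.le
  · rw [sub_ne_zero]
    intro h0
    have := Nat.cast_injective h0
    omega
  · rw [hTT]
    exact ⟨0, Nat.zero_le _, by simp⟩
  · intro t ht
    rw [hTT] at ht ⊢
    obtain ⟨k, hk, rfl⟩ := ht
    rcases Nat.lt_or_ge k n with h1 | h1
    · right
      exact ⟨k + 1, h1, by push_cast; ring⟩
    · left
      have : k = n := le_antisymm hk h1
      rw [this]

end Abstract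

end Pool.Agent.Work.MP_96f494_lc
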