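import Pool.Agent.Work.MP_96f494_lc.Ae
import Pool.Agent.Work.MP_96f494_lc.Robinson

/-!
The hypotheses of the abstract coding theorem hold for `Ztr σ`, for almost all `σ`.
-/

namespace Pool.Agent.Work.MP_96f494_lc

open Polynomial IntermediateField MeasureTheory Filter

/-- The real embeddings of `Ztr σ`. -/
noncomputable def phi (σ : Qtr ≃ₐ[ℚ] Qtr) (g : Qtr ≃ₐ[ℚ] Qtr) : Ztr σ →+* ℝ :=
  (emb.comp (g : Qtr →+* Qtr)).comp (Ztr σ).subtype

lemma phi_apply (σ g : Qtr ≃ₐ[ℚ] Qtr) (x : Ztr σ) : phi σ g x = emb (g (x : Qtr)) := rfl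

lemma phi_inj (σ g : Qtr ≃ₐ[ℚ] Qtr) (z : Ztr σ) (h : phi σ g z = 0) : z = 0 := by
  rw [phi_apply] at h
  have h1 : g (z : Qtr) = 0 := emb_injective (by rw [h, map_zero])
  have h2 : (z : Qtr) = 0 := g.injective (by rw [h1, map_zero])
  exact Subtype.ext h2

lemma phi_small (σ : Qtr ≃ₐ[ℚ] Qtr) (q : Ztr σ) (h : ∀ g, |phi σ g q| < 1) : q = 0 :=
  Subtype.ext (eq_zero_of_small (q : Qtr) q.2.1 h)

lemma phi_fin (σ : Qtr ≃ₐ[ℚ] Qtr) (u v : Ztr σ) (hv : ∀ g, 0 < phi σ g v)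
    (hu : ∀ g, phi σ g u < 4 * phi σ g v) :
    {x : Ztr σ | ∀ g, 0 ≤ phi σ g x ∧ phi σ g v * phi σ g x ≤ phi σ g u}.Finite := by
  have hv0 : (v : Qtr) ≠ 0 := by
    intro h
    have h1 := hv 1
    rw [phi_apply, h, map_zero, map_zero] at h1
    exact lt_irrefl _ h1
  set r : Qtr := (u : Qtr) / (v : Qtr) with hr
  have hrg : ∀ g : Qtr ≃ₐ[ℚ] Qtr, emb (g r) * phi σ g v = phi σ g u := by
    intro g
    rw [phi_apply, phi_apply, ← map_mul, ← map_mul]
    congr 2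
    rw [hr]
    exact div_mul_cancel₀ _ hv0
  obtain ⟨c, hc, hcr⟩ : ∃ c : ℝ, c < 4 ∧ ∀ g : Qtr ≃ₐ[ℚ] Qtr, emb (g r) ≤ c := by
    obtain ⟨y, ⟨g, hg⟩, hy2⟩ := Set.exists_max_image (MulAction.orbit (Qtr ≃ₐ[ℚ] Qtr) r)
      (fun y => emb y) (orbit_finite r) ⟨r, MulAction.mem_orbit_self r⟩
    refine ⟨emb y, ?_, fun g' => hy2 _ ⟨g', rfl⟩⟩
    have h1 := hrg g
    have h2 := hu g
    rw [← h1] at h2
    have h3 := lt_of_mul_lt_mul_right h2 (hv g).le
    rw [← hg]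
    exact h3
  refine Set.Finite.of_finite_image (f := fun x : Ztr σ => (x : Qtr))
    ((finite_of_lt_four c hc).subset ?_) Subtype.val_injective.injOn
  rintro _ ⟨x, hx, rfl⟩
  refine ⟨x.2.1, fun g => ⟨(hx g).1, ?_⟩⟩
  have h1 := (hx g).2
  rw [← hrg g, mul_comm] at h1
  exact (le_of_mul_le_mul_right h1 (hv g)).trans (hcr g)

lemma cc_bounds {p : ℕ} (hp : p.Prime) (g : Qtr ≃ₐ[ℚ] Qtr) :
    0 ≤ 2 + emb (g (cc p)) ∧ 2 + emb (g (cc p)) < 4 := by
  obtain ⟨z, hz, hz2⟩ := cc_conj hp.pos g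
  have hnorm : ‖z‖ = 1 := by
    have : ‖z‖ ^ p = 1 := by rw [← norm_pow, hz.pow_eq_one, norm_one]
    exact (pow_eq_one_iff_of_nonneg (norm_nonneg _) hp.ne_zero).1 this
  have h1 : z.re ^ 2 + z.im ^ 2 = 1 := by
    have := Complex.normSq_eq_norm_sq z
    rw [hnorm, Complex.normSq_apply] at this
    nlinarith
  have hz1 : z ≠ 1 := hz.ne_one hp.one_lt
  rw [hz2]
  constructor
  · nlinarith [sq_nonneg z.im]
  · by_contra hcon
    push Not at hcon
    have h2 : z.re = 1 := by nlinarith [sq_nonneg z.im]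
    have h3 : z.im = 0 := by
      have : z.im ^ 2 = 0 := by rw [h2] at h1; linarith
      exact pow_eq_zero_iff (two_ne_zero) |>.1 this
    exact hz1 (Complex.ext (by simpa using h2) (by simpa using h3))

lemma cc_inj {p q : ℕ} (hp : p.Prime) (hq : q.Prime) (h : cc p = cc q) : p = q := by
  have h1 := congrArg (fun t : Qtr => (t : ℂ)) h
  simp only [cc_coe hp.pos, cc_coe hq.pos] at h1
  have hp0 : om p ≠ 0 := (om_prim hp.pos).ne_zero hp.ne_zero
  have hq0 : om q ≠ 0 := (om_prim hq.pos).ne_zero hq.ne_zero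
  have h2 : (om p - om q) * (om p * om q - 1) = 0 := by
    field_simp at h1
    linear_combination h1
  rcases mul_eq_zero.1 h2 with h3 | h3
  · have h4 : om p = om q := sub_eq_zero.1 h3
    have h5 := om_prim hp.pos
    rw [h4] at h5
    exact h5.unique (om_prim hq.pos)
  · have h4 : om p = (om q)⁻¹ := by
      exact eq_inv_of_mul_eq_one_left (sub_eq_zero.1 h3)
    have h5 := om_prim hp.pos
    rw [h4] at h5
    exact h5.unique (om_prim hq.pos).inv

lemma phi_large (σ : Qtr ≃ₐ[ℚ] Qtr) (hσ : ∀ N : ℕ, ∃ p, N ≤ p ∧ p.Prime ∧ σ (cc p) = cc p)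
    (N : ℕ) : ∃ u v : ℕ, 0 < v ∧ u < 4 * v ∧ ∃ s : Finset (Ztr σ), N ≤ s.card ∧
      ∀ x ∈ s, ∀ g, 0 ≤ phi σ g x ∧ v * phi σ g x ≤ u := by
  classical
  have hinf : {p : ℕ | p.Prime ∧ σ (cc p) = cc p}.Infinite := by
    rw [Set.infinite_iff_exists_gt]
    intro a
    obtain ⟨p, hp, hp2, hp3⟩ := hσ (a + 1)
    exact ⟨p, ⟨hp2, hp3⟩, hp⟩
  obtain ⟨P, hP, hPc⟩ := hinf.exists_subset_card_eq N
  -- the elements
  let f : {p // p ∈ P} → Ztr σ := fun p => ⟨2 + cc (p : ℕ), by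
    rw [mem_Ztr]
    refine ⟨?_, ?_⟩
    · refine IsIntegral.add ?_ (cc_integral _)
      exact_mod_cast isIntegral_algebraMap (R := ℤ) (A := Qtr) (x := 2)
    · rw [map_add, (hP p.2).2, map_ofNat]⟩
  have hf : Function.Injective f := by
    intro p q hpq
    have h1 := congrArg (fun t : Ztr σ => (t : Qtr)) hpq
    have h2 : cc (p : ℕ) = cc (q : ℕ) := add_left_cancel h1
    exact Subtype.ext (cc_inj (hP p.2).1 (hP q.2).1 h2)
  have hfg : ∀ (p : {p // p ∈ P}) g, phi σ g (f p) = 2 + emb (g (cc (p : ℕ))) := by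
    intro p g
    show emb (g (2 + cc (p : ℕ))) = _
    rw [map_add, map_add, map_ofNat, map_ofNat]
  -- a uniform bound
  obtain ⟨c, hc, hc0, hcb⟩ : ∃ c : ℝ, c < 4 ∧ 0 ≤ c ∧ ∀ (p : {p // p ∈ P}) g, phi σ g (f p) ≤ c := by
    have h1 : ∀ p : {p // p ∈ P}, ∃ c : ℝ, c < 4 ∧ ∀ g, phi σ g (f p) ≤ c := by
      intro p
      obtain ⟨y, ⟨g, hg⟩, hy2⟩ := Set.exists_max_image
        (MulAction.orbit (Qtr ≃ₐ[ℚ] Qtr) (2 + cc (p : ℕ)))
        (fun y => emb y) (orbit_finite _) ⟨_, MulAction.mem_orbit_self _⟩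
      refine ⟨emb y, ?_, fun g' => hy2 _ ⟨g', rfl⟩⟩
      have h3 := (cc_bounds (hP p.2).1 g).2
      have h4 := hfg p g
      rw [← hg]
      show phi σ g (f p) < 4
      rw [h4]; exact h3
    choose c hc hcb using h1
    rcases isEmpty_or_nonempty {p // p ∈ P} with he | he
    · exact ⟨0, by norm_num, le_refl _, fun p => he.elim p⟩
    · obtain ⟨q, hq⟩ := Finite.exists_max c
      refine ⟨max (c q) 0, max_lt (hc q) (by norm_num), le_max_right _ _, fun p g => ?_⟩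
      exact (hcb p g).trans ((hq p).trans (le_max_left _ _))
  obtain ⟨k, hk⟩ := exists_nat_gt (1 / (4 - c))
  have h4c : 0 < 4 - c := by linarith
  have hk0 : (0 : ℝ) < k := lt_trans (by positivity) hk
  have hk0' : 0 < k := by exact_mod_cast hk0
  refine ⟨4 * k - 1, k, hk0', by omega, Finset.univ.image f, ?_, ?_⟩
  · rw [Finset.card_image_of_injective _ hf, Finset.card_univ, Fintype.card_coe, hPc]
  · intro x hx g
    obtain ⟨p, -, rfl⟩ := Finset.mem_image.1 hx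
    refine ⟨?_, ?_⟩
    · rw [hfg]
      exact (cc_bounds (hP p.2).1 g).1
    · have h1 := hcb p g
      have h2 : (k : ℝ) * phi σ g (f p) ≤ k * c := mul_le_mul_of_nonneg_left h1 hk0.le
      have h3 : 1 < k * (4 - c) := by
        rw [div_lt_iff₀ h4c] at hk
        exact hk
      rw [Nat.cast_sub (by omega)]
      push_cast
      linarith

/-- Total nonnegativity is definable, once `σ` moves `√l`. -/
lemma phi_nn (σ : Qtr ≃ₐ[ℚ] Qtr) (l : ℕ) (hl : l.Prime) (hσ : σ (sq l) = -sq l) (x : Ztr σ) :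
    NN (phi σ) x ↔ ∃ z : Ztr σ, x = z * z ∨ (l : Ztr σ) * x = z * z := by
  constructor
  · intro hx
    obtain ⟨z, hz⟩ := exists_sqrt (x : Qtr) (fun g => hx g)
    have hzint : IsIntegral ℤ z := by
      have : IsIntegral ℤ (z ^ 2) := by rw [hz]; exact x.2.1
      exact this.of_pow (by norm_num)
    have h1 : (σ z) ^ 2 = z ^ 2 := by rw [← map_pow, hz, x.2.2]
    rcases sq_eq_sq_iff_eq_or_eq_neg.1 h1 with h2 | h2
    · refine ⟨⟨z, hzint, h2⟩, Or.inl (Subtype.ext ?_)⟩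
      show (x : Qtr) = z * z
      rw [← hz]; ring
    · refine ⟨⟨sq l * z, (sq_integral l).mul hzint, by rw [map_mul, hσ, h2]; ring⟩,
        Or.inr (Subtype.ext ?_)⟩
      show ((l : Ztr σ) : Qtr) * (x : Qtr) = (sq l * z) * (sq l * z)
      rw [← hz]
      have : ((l : Ztr σ) : Qtr) = (l : Qtr) := rfl
      rw [this, ← sq_sq l]; ring
  · rintro ⟨z, hz | hz⟩ g
    · rw [hz, map_mul]
      exact mul_self_nonneg _
    · have h1 : (l : ℝ) * phi σ g x = phi σ g z * phi σ g z := by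
        rw [← map_mul, ← hz, map_mul, map_natCast]
      have h2 : (0 : ℝ) < l := by exact_mod_cast hl.pos
      have h3 : 0 ≤ (l : ℝ) * phi σ g x := by rw [h1]; exact mul_self_nonneg _
      exact nonneg_of_mul_nonneg_right h3 h2

/-- For almost all `σ`: the set of natural numbers is defined in `Ztr σ` by the Robinson
condition, with total nonnegativity expressed by squares. -/
theorem ae_main : ∀ᵐ σ ∂haarG, ∃ l : ℕ,
    (∀ x : Ztr σ, NN (phi σ) x ↔ ∃ z : Ztr σ, x = z * z ∨ (l : Ztr σ) * x = z * z) ∧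
    ∀ n : Ztr σ, NatCond (phi σ) n ↔ ∃ k : ℕ, n = k := by
  filter_upwards [ae_freq, ae_move] with σ h1 h2
  obtain ⟨l, hl, hl2⟩ := h2
  refine ⟨l, phi_nn σ l hl hl2, fun n => ⟨?_, ?_⟩⟩
  · exact natCond_imp (phi_inj σ) (phi_small σ) (phi_fin σ) n
  · rintro ⟨k, rfl⟩
    exact natCond_of (phi_inj σ) (phi_small σ) (exists_nat_mul σ) (phi_fin σ) (phi_large σ h1) k

end Pool.Agent.Work.MP_96f494_lc
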