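import Mathlib

/-!
An explicit Gödel numbering of the first-order sentences in the language of rings, and the notion
of a decidable first-order theory of a ring.
-/

namespace Pool.Agent.Work.MP_96f494_lc

set_option linter.unusedSimpArgs false

open FirstOrder FirstOrder.Language

/-- Code of an application of a function symbol, given the codes of the arguments. -/
noncomputable def codeFunc {k : ℕ} (f : ringFunc k) : (Fin k → ℕ) → ℕ :=
  ringFunc.rec (motive := fun k _ => (Fin k → ℕ) → ℕ)
    (fun c => Nat.pair 3 (Nat.pair (c 0) (c 1)))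
    (fun c => Nat.pair 4 (Nat.pair (c 0) (c 1)))
    (fun c => Nat.pair 2 (c 0))
    (fun _ => Nat.pair 1 0)
    (fun _ => Nat.pair 1 1) f

/-- Code of a term with variables `x_0, …, x_{n-1}`. -/
noncomputable def codeTerm {n : ℕ} (t : Language.ring.Term (Empty ⊕ Fin n)) : ℕ :=
  Term.rec (motive := fun _ => ℕ)
    (fun a => Sum.elim (fun e : Empty => Empty.elim e) (fun i : Fin n => Nat.pair 0 (i : ℕ)) a)
    (fun f _ c => codeFunc f c) t

/-- Code of a formula with free variables among `x_0, …, x_{n-1}`; the quantifier binds `x_n`. -/
noncomputable def codeFormula {n : ℕ} (φ : Language.ring.BoundedFormula Empty n) : ℕ :=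
  BoundedFormula.rec (motive := fun _ _ => ℕ)
    (Nat.pair 0 0)
    (fun t₁ t₂ => Nat.pair 1 (Nat.pair (codeTerm t₁) (codeTerm t₂)))
    (fun r _ => Empty.elim r)
    (fun _ _ a b => Nat.pair 2 (Nat.pair a b))
    (fun _ a => Nat.pair 3 a) φ

lemma codeTerm_var {n : ℕ} (i : Fin n) :
    codeTerm (.var (.inr i) : Language.ring.Term (Empty ⊕ Fin n)) = Nat.pair 0 i := rfl
lemma codeTerm_func {n k : ℕ} (f : ringFunc k) (ts : Fin k → Language.ring.Term (Empty ⊕ Fin n)) :
    codeTerm (.func f ts : Language.ring.Term (Empty ⊕ Fin n)) =
      codeFunc f fun i => codeTerm (ts i) := rfl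
lemma codeFunc_add (c : Fin 2 → ℕ) :
    codeFunc ringFunc.add c = Nat.pair 3 (Nat.pair (c 0) (c 1)) := rfl
lemma codeFunc_mul (c : Fin 2 → ℕ) :
    codeFunc ringFunc.mul c = Nat.pair 4 (Nat.pair (c 0) (c 1)) := rfl
lemma codeFunc_neg (c : Fin 1 → ℕ) : codeFunc ringFunc.neg c = Nat.pair 2 (c 0) := rfl
lemma codeFunc_zero (c : Fin 0 → ℕ) : codeFunc ringFunc.zero c = Nat.pair 1 0 := rfl
lemma codeFunc_one (c : Fin 0 → ℕ) : codeFunc ringFunc.one c = Nat.pair 1 1 := rfl
lemma codeFormula_falsum {n : ℕ} :
    codeFormula (.falsum : Language.ring.BoundedFormula Empty n) = Nat.pair 0 0 := rfl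
lemma codeFormula_equal {n : ℕ} (t₁ t₂ : Language.ring.Term (Empty ⊕ Fin n)) :
    codeFormula (.equal t₁ t₂ : Language.ring.BoundedFormula Empty n) =
      Nat.pair 1 (Nat.pair (codeTerm t₁) (codeTerm t₂)) := rfl
lemma codeFormula_imp {n : ℕ} (φ ψ : Language.ring.BoundedFormula Empty n) :
    codeFormula (.imp φ ψ : Language.ring.BoundedFormula Empty n) =
      Nat.pair 2 (Nat.pair (codeFormula φ) (codeFormula ψ)) := rfl
lemma codeFormula_all {n : ℕ} (φ : Language.ring.BoundedFormula Empty (n + 1)) :
    codeFormula (.all φ : Language.ring.BoundedFormula Empty n) =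
      Nat.pair 3 (codeFormula φ) := rfl

lemma codeFunc_inj {k k' : ℕ} (f : ringFunc k) (f' : ringFunc k') (c : Fin k → ℕ)
    (c' : Fin k' → ℕ) (h : codeFunc f c = codeFunc f' c') :
    k = k' ∧ HEq f f' ∧ ∀ i (h1 : i < k) (h2 : i < k'), c ⟨i, h1⟩ = c' ⟨i, h2⟩ := by
  cases f <;> cases f' <;> simp only [codeFunc_add, codeFunc_mul, codeFunc_neg, codeFunc_zero, codeFunc_one,
    Nat.pair_eq_pair] at h <;>
    first
    | (exfalso; omega)
    | (refine ⟨rfl, HEq.rfl, ?_⟩
       intro i h1 h2
       first
       | omega
       | (interval_cases i <;> simp_all))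

lemma codeTerm_inj {n : ℕ} : ∀ t t' : Language.ring.Term (Empty ⊕ Fin n),
    codeTerm t = codeTerm t' → t = t' := by
  intro t
  induction t with
  | var a =>
    intro t' h
    rcases a with e | i
    · exact e.elim
    · cases t' with
      | var a' =>
        rcases a' with e | j
        · exact e.elim
        · simp only [codeTerm_var, Nat.pair_eq_pair, true_and] at h
          rw [Fin.ext h]
      | func f ts =>
        exfalso
        simp only [codeTerm_var, codeTerm_func] at h
        cases f <;> simp [codeFunc_add, codeFunc_mul, codeFunc_neg, codeFunc_zero, codeFunc_one,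
          Nat.pair_eq_pair] at h
  | @func k f ts ih =>
    intro t' h
    cases t' with
    | var a' =>
      rcases a' with e | j
      · exact e.elim
      · exfalso
        simp only [codeTerm_var, codeTerm_func] at h
        cases f <;> simp [codeFunc_add, codeFunc_mul, codeFunc_neg, codeFunc_zero, codeFunc_one,
          Nat.pair_eq_pair] at h
    | @func k' f' ts' =>
      simp only [codeTerm_var, codeTerm_func] at h
      obtain ⟨h1, h2, h3⟩ := codeFunc_inj f f' _ _ h
      subst h1
      have h2' := eq_of_heq h2
      subst h2'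
      congr 1
      funext i
      exact ih i _ (h3 i i.2 i.2)

lemma codeFormula_inj : ∀ {n : ℕ} (φ ψ : Language.ring.BoundedFormula Empty n),
    codeFormula φ = codeFormula ψ → φ = ψ := by
  intro n φ
  induction φ with
  | falsum =>
    intro ψ h
    cases ψ with
    | falsum => rfl
    | equal => simp [codeFormula_falsum, codeFormula_equal, codeFormula_imp, codeFormula_all,
        Nat.pair_eq_pair] at h
    | rel r => exact Empty.elim r
    | imp => simp [codeFormula_falsum, codeFormula_equal, codeFormula_imp, codeFormula_all,
        Nat.pair_eq_pair] at h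
    | all => simp [codeFormula_falsum, codeFormula_equal, codeFormula_imp, codeFormula_all,
        Nat.pair_eq_pair] at h
  | equal t₁ t₂ =>
    intro ψ h
    cases ψ with
    | falsum => simp [codeFormula_falsum, codeFormula_equal, codeFormula_imp, codeFormula_all,
        Nat.pair_eq_pair] at h
    | equal s₁ s₂ =>
      simp only [codeFormula_equal, codeFormula_imp, codeFormula_all, Nat.pair_eq_pair,
        true_and] at h
      rw [codeTerm_inj _ _ h.1, codeTerm_inj _ _ h.2]
    | rel r => exact Empty.elim r
    | imp => simp [codeFormula_falsum, codeFormula_equal, codeFormula_imp, codeFormula_all,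
        Nat.pair_eq_pair] at h
    | all => simp [codeFormula_falsum, codeFormula_equal, codeFormula_imp, codeFormula_all,
        Nat.pair_eq_pair] at h
  | rel r => exact Empty.elim r
  | imp φ₁ φ₂ ih1 ih2 =>
    intro ψ h
    cases ψ with
    | falsum => simp [codeFormula_falsum, codeFormula_equal, codeFormula_imp, codeFormula_all,
        Nat.pair_eq_pair] at h
    | equal => simp [codeFormula_falsum, codeFormula_equal, codeFormula_imp, codeFormula_all,
        Nat.pair_eq_pair] at h
    | rel r => exact Empty.elim r
    | imp ψ₁ ψ₂ =>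
      simp only [codeFormula_equal, codeFormula_imp, codeFormula_all, Nat.pair_eq_pair,
        true_and] at h
      rw [ih1 _ h.1, ih2 _ h.2]
    | all => simp [codeFormula_falsum, codeFormula_equal, codeFormula_imp, codeFormula_all,
        Nat.pair_eq_pair] at h
  | all φ ih =>
    intro ψ h
    cases ψ with
    | falsum => simp [codeFormula_falsum, codeFormula_equal, codeFormula_imp, codeFormula_all,
        Nat.pair_eq_pair] at h
    | equal => simp [codeFormula_falsum, codeFormula_equal, codeFormula_imp, codeFormula_all,
        Nat.pair_eq_pair] at h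
    | rel r => exact Empty.elim r
    | imp => simp [codeFormula_falsum, codeFormula_equal, codeFormula_imp, codeFormula_all,
        Nat.pair_eq_pair] at h
    | all ψ =>
      simp only [codeFormula_equal, codeFormula_imp, codeFormula_all, Nat.pair_eq_pair,
        true_and] at h
      rw [ih _ h]

/-- The Gödel number of a sentence in the language of rings. -/
noncomputable def godel : Language.ring.Sentence ↪ ℕ := ⟨codeFormula, fun _ _ h => codeFormula_inj _ _ h⟩

/-- The ring `R` has a decidable first-order theory in the language of rings: some computable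
function on the Gödel numbers decides which sentences hold in `R`. -/
def HasDecidableTheory (R : Type) [CommRing R] : Prop :=
  ∃ d : ℕ → Bool, Computable d ∧ ∀ φ : Language.ring.Sentence,
    d (godel φ) = true ↔ @Sentence.Realize _ R (Ring.compatibleRingOfRing R).toStructure φ

end Pool.Agent.Work.MP_96f494_lc
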