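import Pool.Agent.Work.MP_96f494_lc.Kron

/-!
Algebraic integers: small conjugates, divisors of rational integers, the numbers
`2 + 2 cos (2π/n)`.
-/

namespace Pool.Agent.Work.MP_96f494_lc

open Polynomial IntermediateField

lemma norm_prod_lt (m : Multiset ℂ) (h : ∀ z ∈ m, ‖z‖ < 1) (hm : m ≠ 0) : ‖m.prod‖ < 1 := by
  have hle : ∀ m : Multiset ℂ, (∀ z ∈ m, ‖z‖ < 1) → ‖m.prod‖ ≤ 1 := by
    intro m
    induction m using Multiset.induction with
    | empty => intro _; simp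
    | cons a m ih =>
      intro h
      rw [Multiset.prod_cons, norm_mul]
      have h1 := ih fun z hz => h z (Multiset.mem_cons_of_mem hz)
      have h2 := h a (Multiset.mem_cons_self a m)
      nlinarith [norm_nonneg a, norm_nonneg m.prod]
  obtain ⟨a, ha⟩ := Multiset.exists_mem_of_ne_zero hm
  obtain ⟨t, rfl⟩ := Multiset.exists_cons_of_mem ha
  rw [Multiset.prod_cons, norm_mul]
  have h1 := hle t fun z hz => h z (Multiset.mem_cons_of_mem hz)
  have h2 := h a (Multiset.mem_cons_self a t)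
  nlinarith [norm_nonneg a, norm_nonneg t.prod]

/-- A totally real algebraic integer all of whose conjugates have absolute value less than one
vanishes. -/
lemma eq_zero_of_small (q : Qtr) (hint : IsIntegral ℤ q)
    (h : ∀ g : Qtr ≃ₐ[ℚ] Qtr, |emb (g q)| < 1) : q = 0 := by
  have hmon := minpoly.monic hint
  have hroot : ∀ z ∈ ((minpoly ℤ q).map (algebraMap ℤ ℂ)).roots, ‖z‖ < 1 := by
    intro z hz
    have hz' : aeval z (minpoly ℚ q) = 0 := by
      rw [minpoly.isIntegrallyClosed_eq_field_fractions' ℚ hint, aeval_map_algebraMap]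
      have := (mem_roots'.1 hz).2
      rwa [IsRoot.def, eval_map_algebraMap] at this
    obtain ⟨g, hg⟩ := exists_gal q z hz'
    rw [← hg, ← emb_coe, Complex.norm_real, Real.norm_eq_abs]
    exact h g
  have hcoeff : (((minpoly ℤ q).coeff 0 : ℤ) : ℂ)
      = (-1) ^ ((minpoly ℤ q).map (algebraMap ℤ ℂ)).natDegree
        * ((minpoly ℤ q).map (algebraMap ℤ ℂ)).roots.prod := by
    have h1 := (IsAlgClosed.splits ((minpoly ℤ q).map (algebraMap ℤ ℂ))).coeff_zero_eq_prod_roots_of_monic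
      (hmon.map _)
    rw [coeff_map] at h1
    simpa using h1
  have hprod : ‖((minpoly ℤ q).map (algebraMap ℤ ℂ)).roots.prod‖ < 1 := by
    refine norm_prod_lt _ hroot ?_
    intro h0
    have h1 := (IsAlgClosed.splits ((minpoly ℤ q).map (algebraMap ℤ ℂ))).natDegree_eq_card_roots
    rw [h0, Multiset.card_zero, (hmon.natDegree_map _)] at h1
    exact (minpoly.natDegree_pos hint).ne' h1
  have h2 : (minpoly ℤ q).coeff 0 = 0 := by
    have h3 : ‖(((minpoly ℤ q).coeff 0 : ℤ) : ℂ)‖ < 1 := by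
      rw [hcoeff, norm_mul, norm_pow, norm_neg, norm_one, one_pow, one_mul]
      exact hprod
    rw [Complex.norm_intCast] at h3
    have h4 : |(minpoly ℤ q).coeff 0| < 1 := by exact_mod_cast h3
    exact Int.abs_lt_one_iff.1 h4
  have h5 : (minpoly ℚ q).coeff 0 = 0 := by
    rw [minpoly.isIntegrallyClosed_eq_field_fractions' ℚ hint, coeff_map, h2, map_zero]
  exact (minpoly.coeff_zero_eq_zero (isIntegralQ q)).1 h5

/-- The ring of totally real algebraic integers fixed by `σ`. -/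
def Ztr (σ : Qtr ≃ₐ[ℚ] Qtr) : Subring Qtr where
  carrier := {x | IsIntegral ℤ x ∧ σ x = x}
  mul_mem' := fun hx hy => ⟨hx.1.mul hy.1, by rw [map_mul, hx.2, hy.2]⟩
  add_mem' := fun hx hy => ⟨hx.1.add hy.1, by rw [map_add, hx.2, hy.2]⟩
  one_mem' := ⟨isIntegral_one, map_one σ⟩
  zero_mem' := ⟨isIntegral_zero, map_zero σ⟩
  neg_mem' := fun hx => ⟨hx.1.neg, by rw [map_neg, hx.2]⟩

lemma mem_Ztr {σ : Qtr ≃ₐ[ℚ] Qtr} {x : Qtr} : x ∈ Ztr σ ↔ IsIntegral ℤ x ∧ σ x = x := Iff.rfl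

/-- Every nonzero element of `Ztr σ` divides a positive integer. -/
lemma exists_nat_mul (σ : Qtr ≃ₐ[ℚ] Qtr) (z : Ztr σ) (hz : z ≠ 0) :
    ∃ c : ℕ, 0 < c ∧ z ∣ (c : Ztr σ) := by
  have hint : IsIntegral ℤ (z : Qtr) := z.2.1
  have hint' : IsIntegral ℤ z := by
    obtain ⟨p, hp, hp2⟩ := hint
    refine ⟨p, hp, ?_⟩
    apply Subtype.val_injective
    have : (Ztr σ).subtype (eval₂ (algebraMap ℤ (Ztr σ)) z p)
        = eval₂ (algebraMap ℤ Qtr) (z : Qtr) p := by
      rw [hom_eval₂]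
      congr 1
    exact this.trans (hp2.trans rfl)
  set P := minpoly ℤ z with hP
  have h0 : aeval z P = 0 := minpoly.aeval _ _
  have h1 : P.coeff 0 ≠ 0 := by
    intro h2
    have h3 : P = divX P * X := by
      conv_lhs => rw [← divX_mul_X_add P, h2, C_0, add_zero]
    have h4 : aeval z (divX P) = 0 := by
      rw [h3, map_mul, aeval_X] at h0
      exact (mul_eq_zero.1 h0).resolve_right hz
    have h5 : (divX P).Monic := by
      have hm := minpoly.monic hint'
      rw [← hP, h3] at hm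
      exact Monic.of_mul_monic_right monic_X hm
    have h6 := minpoly.min ℤ z h5 h4
    rw [← hP] at h6
    have h7 : P.degree = (divX P).degree + 1 := by
      conv_lhs => rw [h3, degree_mul_X]
    have h8 : (divX P).degree ≠ ⊥ := by
      rw [Ne, degree_eq_bot]
      exact h5.ne_zero
    rw [h7] at h6
    obtain ⟨d, hd⟩ : ∃ d : ℕ, (divX P).degree = d := ⟨_, degree_eq_natDegree h5.ne_zero⟩
    rw [hd] at h6
    have : ((d + 1 : ℕ) : WithBot ℕ) ≤ (d : ℕ) := by exact_mod_cast h6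
    have := WithBot.coe_le_coe.1 this
    exact absurd this (by simp)
  refine ⟨(P.coeff 0).natAbs, Int.natAbs_pos.2 h1, ?_⟩
  have h2 : z ∣ ((P.coeff 0 : ℤ) : Ztr σ) := by
    have h3 : aeval z (divX P * X + C (P.coeff 0)) = 0 := by rw [divX_mul_X_add]; exact h0
    rw [map_add, map_mul, aeval_X, aeval_C] at h3
    refine ⟨-(aeval z (divX P)), ?_⟩
    have h4 : (algebraMap ℤ (Ztr σ)) (P.coeff 0) = ((P.coeff 0 : ℤ) : Ztr σ) := rfl
    rw [← h4]
    linear_combination h3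
  have h3 : ((P.coeff 0 : ℤ) : Ztr σ) ∣ (((P.coeff 0).natAbs : ℕ) : Ztr σ) := by
    have h4 : (P.coeff 0) ∣ (((P.coeff 0).natAbs : ℕ) : ℤ) := Int.dvd_natAbs_self
    obtain ⟨e, he⟩ := h4
    refine ⟨(e : Ztr σ), ?_⟩
    have h5 := congrArg (fun t : ℤ => (t : Ztr σ)) he
    simp only [Int.cast_natCast, Int.cast_mul] at h5
    exact h5
  exact h2.trans h3

/-- The root of unity `exp (2πi/n)`. -/
noncomputable def om (n : ℕ) : ℂ := Complex.exp (2 * Real.pi * Complex.I / n)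

lemma om_prim {n : ℕ} (hn : 0 < n) : IsPrimitiveRoot (om n) n := Complex.isPrimitiveRoot_exp n hn.ne'

lemma inv_eq_conj {z : ℂ} {n : ℕ} (hn : 0 < n) (hz : z ^ n = 1) : z + z⁻¹ = ((2 * z.re : ℝ) : ℂ) := by
  have h1 : ‖z‖ = 1 := by
    have : ‖z‖ ^ n = 1 := by rw [← norm_pow, hz, norm_one]
    exact (pow_eq_one_iff_of_nonneg (norm_nonneg _) hn.ne').1 this
  have h2 : z⁻¹ = (starRingEnd ℂ) z := by
    rw [Complex.inv_def, Complex.normSq_eq_norm_sq, h1]
    simp
  rw [h2, Complex.add_conj]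

/-- `2 cos (2π/n)` is totally real. -/
lemma c_tr {n : ℕ} (hn : 0 < n) : om n + (om n)⁻¹ ∈ Qtr := by
  rw [mem_Qtr, isTotallyReal_iff]
  have hint : IsIntegral ℤ (om n) := (om_prim hn).isIntegral hn
  set b : Qbar := ⟨om n, isAlg_of_int hint⟩ with hb
  refine ⟨b + b⁻¹, rfl, fun τ => ?_⟩
  rw [map_add, map_inv₀]
  have h1 : ((τ b : Qbar) : ℂ) ^ n = 1 := by
    have : b ^ n = 1 := Subtype.ext (om_prim hn).pow_eq_one
    have h2 : (τ b) ^ n = 1 := by rw [← map_pow, this, map_one]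
    exact congrArg (fun t : Qbar => (t : ℂ)) h2
  show ((τ b : ℂ) + (τ b : ℂ)⁻¹).im = 0
  rw [inv_eq_conj hn h1]
  simp

/-- The totally real number `2 cos (2π/n)`. -/
noncomputable def cc (n : ℕ) : Qtr := if hn : 0 < n then ⟨om n + (om n)⁻¹, c_tr hn⟩ else 0

lemma cc_coe {n : ℕ} (hn : 0 < n) : (cc n : ℂ) = om n + (om n)⁻¹ := by
  simp [cc, hn]

lemma cc_integral (n : ℕ) : IsIntegral ℤ (cc n) := by
  rcases Nat.eq_zero_or_pos n with h | hn
  · subst h
    simp only [cc, lt_irrefl, dite_false]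
    exact isIntegral_zero
  · have hint : IsIntegral ℤ (om n) := (om_prim hn).isIntegral hn
    have hint2 : IsIntegral ℤ (om n)⁻¹ := (om_prim hn).inv.isIntegral hn
    have : IsIntegral ℤ ((cc n : Qtr) : ℂ) := by
      rw [cc_coe hn]
      exact hint.add hint2
    obtain ⟨p, hp, hp2⟩ := this
    refine ⟨p, hp, ?_⟩
    apply Subtype.val_injective
    have h3 : (algebraMap Qtr ℂ) (eval₂ (algebraMap ℤ Qtr) (cc n) p)
        = eval₂ (algebraMap ℤ ℂ) ((cc n : Qtr) : ℂ) p := by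
      rw [hom_eval₂]
      congr 1
    exact h3.trans (hp2.trans rfl)

/-- Conjugates of `2 cos (2π/n)` have the form `2 cos`. -/
lemma cc_conj {n : ℕ} (hn : 0 < n) (g : Qtr ≃ₐ[ℚ] Qtr) :
    ∃ z : ℂ, IsPrimitiveRoot z n ∧ emb (g (cc n)) = 2 * z.re := by
  have hint : IsIntegral ℤ (om n) := (om_prim hn).isIntegral hn
  set b : Qbar := ⟨om n, isAlg_of_int hint⟩ with hb
  have hbc : ((b + b⁻¹ : Qbar) : ℂ) = (cc n : Qtr) := by rw [cc_coe hn]; rfl
  have h1 := aeval_gal (cc n) g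
  obtain ⟨τ, hτ⟩ := exists_tau (b + b⁻¹) ((g (cc n) : Qtr) : ℂ) (by
    rw [hbc, minpoly_coe]; exact h1)
  rw [map_add, map_inv₀] at hτ
  have hprim : IsPrimitiveRoot ((τ b : Qbar) : ℂ) n := by
    have h2 : IsPrimitiveRoot b n := by
      have : IsPrimitiveRoot (algebraMap Qbar ℂ b) n := om_prim hn
      exact (IsPrimitiveRoot.map_iff_of_injective (algebraMap Qbar ℂ).injective).1 this
    have h3 : IsPrimitiveRoot (τ b) n := h2.map_of_injective τ.injective
    exact h3.map_of_injective (algebraMap Qbar ℂ).injective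
  refine ⟨((τ b : Qbar) : ℂ), hprim, ?_⟩
  have h4 : ((g (cc n) : Qtr) : ℂ) = ((2 * ((τ b : Qbar) : ℂ).re : ℝ) : ℂ) := by
    rw [← inv_eq_conj hn hprim.pow_eq_one, ← hτ]
    rfl
  show ((g (cc n) : Qtr) : ℂ).re = _
  rw [h4, Complex.ofReal_re]

end Pool.Agent.Work.MP_96f494_lc
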