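import Pool.Agent.Work.MP_96f494_lc.Qtr

/-!
Kronecker's theorem and its consequences for totally real algebraic integers with all
conjugates in `[0, 4]`.
-/

namespace Pool.Agent.Work.MP_96f494_lc

open Polynomial IntermediateField

lemma kronecker {ζ : ℂ} (hint : IsIntegral ℤ ζ) (hz : ζ ≠ 0)
    (h : ∀ z : ℂ, aeval z (minpoly ℚ ζ) = 0 → ‖z‖ ≤ 1) : ∃ n, 0 < n ∧ IsPrimitiveRoot ζ n := by
  let K := ℚ⟮ζ⟯
  have hintQ : IsIntegral ℚ ζ := hint.tower_top
  let : NumberField K := {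
    to_charZero := ℚ⟮ζ⟯.charZero,
    to_finiteDimensional := adjoin.finiteDimensional hintQ }
  let y : K := ⟨ζ, mem_adjoin_simple_self ℚ ζ⟩
  suffices ∃ (n : ℕ) (_ : 0 < n), y ^ n = 1 by
    obtain ⟨n, hn₀, hn₁⟩ := this
    exact IsPrimitiveRoot.exists_pos (congrArg (algebraMap K ℂ) hn₁) (by omega)
  refine NumberField.Embeddings.pow_eq_one_of_norm_le_one (x := y) K ℂ
    (Subtype.coe_ne_coe.mp hz) (coe_isIntegral_iff.mp hint) fun φ => h _ ?_
  have e1 : minpoly ℚ ζ = minpoly ℚ y := (minpoly.algebraMap_eq (algebraMap K ℂ).injective y)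
  rw [e1]
  have := congrArg φ.toRatAlgHom (minpoly.aeval ℚ y)
  rw [map_zero, ← aeval_algHom_apply] at this
  exact this

/-- Roots of `T² - aT + 1` with `a ∈ [-2, 2]` have absolute value one. -/
lemma quad_norm {a : ℝ} (h1 : -2 ≤ a) (h2 : a ≤ 2) {w : ℂ} (hw : w ^ 2 - a * w + 1 = 0) :
    ‖w‖ = 1 := by
  have h3 := congrArg Complex.re hw
  have h4 := congrArg Complex.im hw
  simp only [pow_two, Complex.add_re, Complex.sub_re, Complex.mul_re, Complex.ofReal_re,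
    Complex.ofReal_im, Complex.one_re, Complex.zero_re] at h3
  simp only [pow_two, Complex.add_im, Complex.sub_im, Complex.mul_im, Complex.ofReal_re,
    Complex.ofReal_im, Complex.one_im, Complex.zero_im] at h4
  have h5 : w.re ^ 2 + w.im ^ 2 = 1 := by
    have h6 : w.im * (2 * w.re - a) = 0 := by linarith
    rcases mul_eq_zero.1 h6 with h7 | h7
    · rw [h7] at h3 ⊢
      have h8 : (w.re - a / 2) ^ 2 + (1 - a / 2) * (1 + a / 2) = 0 := by linarith
      have h9 : 0 ≤ (1 - a / 2) * (1 + a / 2) := mul_nonneg (by linarith) (by linarith)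
      have h10 : (w.re - a / 2) ^ 2 = 0 := le_antisymm (by linarith) (sq_nonneg _)
      have h11 : w.re = a / 2 := by
        have := pow_eq_zero_iff (two_ne_zero) |>.1 h10
        linarith
      rw [h11] at h3 ⊢
      linarith
    · have h8 : a = 2 * w.re := by linarith
      rw [h8] at h3
      linarith
  have h6 : ‖w‖ ^ 2 = 1 := by
    rw [← Complex.normSq_eq_norm_sq, Complex.normSq_apply]
    linarith
  exact (pow_eq_one_iff_of_nonneg (norm_nonneg _) two_ne_zero).1 h6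

/-- Elements of `Qbar` from integrality. -/
lemma isAlg_of_int {z : ℂ} (h : IsIntegral ℤ z) : z ∈ Qbar :=
  mem_algebraicClosure_iff.2 (h.tower_top (A := ℚ)).isAlgebraic

/-- Conjugates over `ℚ` of an element of `Qbar`. -/
lemma exists_tau (b : Qbar) (z : ℂ) (hz : aeval z (minpoly ℚ (b : ℂ)) = 0) :
    ∃ τ : Qbar ≃ₐ[ℚ] Qbar, ((τ b : Qbar) : ℂ) = z := by
  have hint : IsIntegral ℚ (b : ℂ) := b.2
  have hzalg : IsAlgebraic ℚ z := ⟨minpoly ℚ (b : ℂ), minpoly.ne_zero hint, hz⟩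
  set c : Qbar := ⟨z, mem_algebraicClosure_iff.2 hzalg⟩ with hc
  have e1 : minpoly ℚ (b : ℂ) = minpoly ℚ b :=
    (minpoly.algebraMap_eq (algebraMap Qbar ℂ).injective b)
  have e2 : minpoly ℚ z = minpoly ℚ c :=
    (minpoly.algebraMap_eq (algebraMap Qbar ℂ).injective c)
  have e3 : minpoly ℚ (b : ℂ) = minpoly ℚ z :=
    minpoly.eq_of_irreducible_of_monic (minpoly.irreducible hint) hz (minpoly.monic hint)
  have e4 : IsConjRoot ℚ c b := by
    show minpoly ℚ c = minpoly ℚ b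
    rw [← e2, ← e3, e1]
  obtain ⟨τ, hτ⟩ := isConjRoot_iff_exists_algEquiv.1 e4
  exact ⟨τ, by rw [hτ]⟩

/-- A totally real algebraic integer with all conjugates in `[0, 4]` is `2 + ζ + ζ⁻¹` for a
root of unity `ζ`. -/
lemma cos_form (x : Qtr) (hint : IsIntegral ℤ x)
    (hx : ∀ g : Qtr ≃ₐ[ℚ] Qtr, 0 ≤ emb (g x) ∧ emb (g x) ≤ 4) :
    ∃ (ζ : ℂ) (n : ℕ), 0 < n ∧ IsPrimitiveRoot ζ n ∧ (x : ℂ) = 2 + ζ + ζ⁻¹ := by
  have hint' : IsIntegral ℤ (x : ℂ) := hint.map (algebraMap Qtr ℂ).toIntAlgHom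
  obtain ⟨y, hy⟩ : ∃ y : ℂ, y = (x : ℂ) - 2 := ⟨_, rfl⟩
  have hyint : IsIntegral ℤ y := by
    rw [hy]
    exact hint'.sub (by simpa using isIntegral_algebraMap (R := ℤ) (A := ℂ) (x := 2))
  obtain ⟨ζ, hζ⟩ : ∃ ζ : ℂ, ζ ^ 2 - y * ζ + 1 = 0 := by
    have hdeg : (X ^ 2 - C y * X + 1 : ℂ[X]).degree ≠ 0 := by
      have : (X ^ 2 - C y * X + 1 : ℂ[X]).degree = 2 := by compute_degree!
      rw [this]; norm_num
    obtain ⟨ζ, h⟩ := IsAlgClosed.exists_root _ hdeg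
    refine ⟨ζ, ?_⟩
    simpa [IsRoot.def] using h
  have hζ0 : ζ ≠ 0 := by
    rintro rfl
    simp at hζ
  have hyζ : y = ζ + ζ⁻¹ := by
    field_simp
    linear_combination -hζ
  -- integrality
  have hζint : IsIntegral ℤ ζ := by
    let O := integralClosure ℤ ℂ
    have h1 : IsIntegral O ζ := by
      refine ⟨X ^ 2 - C (⟨y, hyint⟩ : O) * X + 1, ?_, ?_⟩
      · monicity!
      · rw [eval₂_add, eval₂_sub, eval₂_mul, eval₂_pow, eval₂_X, eval₂_C, eval₂_one]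
        exact hζ
    exact isIntegral_trans (A := O) ζ h1
  -- conjugates
  obtain ⟨n, hn, hprim⟩ := kronecker hζint hζ0 (by
    intro z hz
    obtain ⟨τ, hτ⟩ := exists_tau ⟨ζ, isAlg_of_int hζint⟩ z hz
    set b : Qbar := ⟨ζ, isAlg_of_int hζint⟩ with hb
    set a : Qbar := ⟨x, isAlg_of_int hint'⟩ with ha
    obtain ⟨g, hg⟩ := exists_gal_of_qbar x a rfl τ
    have h1 : b ^ 2 - (a - 2) * b + 1 = 0 := by
      apply Subtype.ext
      show ζ ^ 2 - ((x : ℂ) - 2) * ζ + 1 = 0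
      rw [← hy]; exact hζ
    have h2 := congrArg τ h1
    rw [map_add, map_sub, map_mul, map_sub, map_pow, map_one, map_zero, map_ofNat] at h2
    have h3 := congrArg (fun t : Qbar => (t : ℂ)) h2
    have h4 : z ^ 2 - ((emb (g x) - 2 : ℝ) : ℂ) * z + 1 = 0 := by
      push_cast
      rw [emb_coe, hg, ← hτ]
      exact h3
    exact (quad_norm (by linarith [(hx g).1]) (by linarith [(hx g).2]) h4).le)
  exact ⟨ζ, n, hn, hprim, by rw [add_assoc, ← hyζ, hy]; ring⟩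

/-- If `x = 2 + ζ + ζ⁻¹` with `ζ` of order `n`, some conjugate of `x` is `2 + 2 cos (2π/n)`. -/
lemma exists_max_conj (x : Qtr) (ζ : ℂ) (n : ℕ) (hn : 0 < n) (hζ : IsPrimitiveRoot ζ n)
    (hx : (x : ℂ) = 2 + ζ + ζ⁻¹) :
    ∃ g : Qtr ≃ₐ[ℚ] Qtr, emb (g x) = 2 + 2 * Real.cos (2 * Real.pi / n) := by
  have hζint : IsIntegral ℤ ζ := hζ.isIntegral hn
  obtain ⟨ω, hω⟩ : ∃ ω : ℂ, ω = Complex.exp (2 * Real.pi * Complex.I / n) := ⟨_, rfl⟩
  have hωp : IsPrimitiveRoot ω n := by rw [hω]; exact Complex.isPrimitiveRoot_exp n hn.ne'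
  have hmin : aeval ω (minpoly ℚ ζ) = 0 := by
    rw [← cyclotomic_eq_minpoly_rat hζ hn, cyclotomic_eq_minpoly_rat hωp hn]
    exact minpoly.aeval _ _
  obtain ⟨τ, hτ⟩ := exists_tau ⟨ζ, isAlg_of_int hζint⟩ ω hmin
  set b : Qbar := ⟨ζ, isAlg_of_int hζint⟩ with hb
  obtain ⟨g, hg⟩ := exists_gal_of_qbar x (2 + b + b⁻¹) (by rw [hx]; rfl) τ
  refine ⟨g, ?_⟩
  rw [map_add, map_add, map_inv₀, map_ofNat] at hg
  have h1 : ((g x : Qtr) : ℂ) = 2 + ω + ω⁻¹ := by
    rw [hg, ← hτ]; rfl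
  show ((g x : Qtr) : ℂ).re = _
  rw [h1]
  have e : ω = Complex.exp ((2 * Real.pi / n : ℝ) * Complex.I) := by
    rw [hω]; congr 1; push_cast; ring
  have e' : ω⁻¹ = Complex.exp ((-(2 * Real.pi / n) : ℝ) * Complex.I) := by
    rw [e, ← Complex.exp_neg]; congr 1; push_cast; ring
  rw [e', e]
  simp only [Complex.add_re, Complex.exp_ofReal_mul_I_re, Real.cos_neg]
  norm_num
  ring

/-- For `c < 4` only finitely many totally real algebraic integers have all their conjugates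
in `[0, c]`. -/
lemma finite_of_lt_four (c : ℝ) (hc : c < 4) :
    {x : Qtr | IsIntegral ℤ x ∧ ∀ g : Qtr ≃ₐ[ℚ] Qtr, 0 ≤ emb (g x) ∧ emb (g x) ≤ c}.Finite := by
  -- a bound for the order
  have hlim : Filter.Tendsto (fun n : ℕ => 2 + 2 * Real.cos (2 * Real.pi / n)) Filter.atTop
      (nhds (2 + 2 * Real.cos 0)) := by
    refine Filter.Tendsto.const_add _ (Filter.Tendsto.const_mul _ ?_)
    refine (Real.continuous_cos.tendsto 0).comp ?_
    exact tendsto_const_div_atTop_nhds_zero_nat _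
  have hev := hlim.eventually (lt_mem_nhds (show c < 2 + 2 * Real.cos 0 by
    rw [Real.cos_zero]; linarith))
  obtain ⟨N, hN⟩ := Filter.eventually_atTop.1 hev
  -- the finite set of candidates
  have hfin : (⋃ n ∈ Finset.range (N + 1), {ζ : ℂ | IsPrimitiveRoot ζ n ∧ 0 < n}).Finite := by
    refine Set.Finite.biUnion (Finset.finite_toSet _) fun n _ => ?_
    refine Set.Finite.subset (Finset.finite_toSet (primitiveRoots n ℂ)) ?_
    rintro ζ ⟨h, h'⟩
    exact (mem_primitiveRoots h').2 h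
  have hfin2 := (hfin.image fun ζ : ℂ => 2 + ζ + ζ⁻¹)
  refine Set.Finite.of_finite_image (f := fun x : Qtr => (x : ℂ)) (hfin2.subset ?_)
    (Subtype.val_injective.injOn)
  rintro _ ⟨x, ⟨hint, hx⟩, rfl⟩
  obtain ⟨ζ, n, hn, hζ, hxζ⟩ := cos_form x hint fun g => ⟨(hx g).1, by linarith [(hx g).2]⟩
  obtain ⟨g, hg⟩ := exists_max_conj x ζ n hn hζ hxζ
  have hnN : n < N + 1 := by
    by_contra hcon
    push Not at hcon
    have h1 := hN n (by omega)
    have h2 := (hx g).2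
    rw [hg] at h2
    linarith
  refine ⟨ζ, ?_, hxζ.symm⟩
  simp only [Finset.mem_range, Set.mem_iUnion, Set.mem_ofPred_eq]
  exact ⟨n, hnN, hζ, hn⟩

end Pool.Agent.Work.MP_96f494_lc
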