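import Pool.Agent.Work.MP_96f494_lc.Godel
import Pool.Agent.Work.MP_96f494_lc.Robinson
import Pool.Agent.Work.MP_4f56fb_lc.Trans

/-!
A ring in which the natural numbers are defined by Robinson's condition is undecidable.
-/

namespace Pool.Agent.Work.MP_96f494_lc

open FirstOrder FirstOrder.Language FirstOrder.Ring
open Pool.Agent.Work.MP_4f56fb_lc (KK kk_dioph kk_not_computable dioph_fin)

section Def

variable {R : Type} [CommRing R] [CompatibleRing R] {α β : Type}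

/-- Functions given by terms. -/
def TD (f : (α → R) → R) : Prop := ∃ t : Language.ring.Term α, ∀ v, t.realize v = f v

/-- Relations given by formulas. -/
def FD (P : (α → R) → Prop) : Prop := ∃ φ : Language.ring.Formula α, ∀ v, φ.Realize v ↔ P v

lemma TD.var (a : α) : TD (fun v : α → R => v a) := ⟨Term.var a, fun _ => rfl⟩

lemma TD.add {f g : (α → R) → R} (hf : TD f) (hg : TD g) : TD (fun v => f v + g v) := by
  obtain ⟨s, hs⟩ := hf
  obtain ⟨t, ht⟩ := hg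
  exact ⟨s + t, fun v => by rw [realize_add, hs, ht]⟩

lemma TD.mul {f g : (α → R) → R} (hf : TD f) (hg : TD g) : TD (fun v => f v * g v) := by
  obtain ⟨s, hs⟩ := hf
  obtain ⟨t, ht⟩ := hg
  exact ⟨s * t, fun v => by rw [realize_mul, hs, ht]⟩

lemma TD.neg {f : (α → R) → R} (hf : TD f) : TD (fun v => -f v) := by
  obtain ⟨s, hs⟩ := hf
  exact ⟨-s, fun v => by rw [realize_neg, hs]⟩

lemma TD.sub {f g : (α → R) → R} (hf : TD f) (hg : TD g) : TD (fun v => f v - g v) := by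
  simp only [sub_eq_add_neg]
  exact hf.add hg.neg

lemma TD.zero : TD (fun _ : α → R => (0 : R)) := ⟨0, fun v => realize_zero v⟩
lemma TD.one : TD (fun _ : α → R => (1 : R)) := ⟨1, fun v => realize_one v⟩

lemma TD.nat (n : ℕ) : TD (fun _ : α → R => (n : R)) := by
  induction n with
  | zero => simpa using TD.zero
  | succ n ih => simpa using ih.add TD.one

lemma TD.int (n : ℤ) : TD (fun _ : α → R => (n : R)) := by
  obtain ⟨k, rfl | rfl⟩ := n.eq_nat_or_neg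
  · simpa using TD.nat k
  · simpa using (TD.nat k).neg

lemma TD.lift {f : (α → R) → R} (hf : TD f) :
    TD (fun w : α ⊕ β → R => f (w ∘ Sum.inl)) := by
  obtain ⟨s, hs⟩ := hf
  exact ⟨s.relabel Sum.inl, fun w => by rw [Term.realize_relabel, hs]⟩

lemma FD.congr {P Q : (α → R) → Prop} (h : FD P) (hPQ : ∀ v, P v ↔ Q v) : FD Q := by
  obtain ⟨φ, hφ⟩ := h
  exact ⟨φ, fun v => (hφ v).trans (hPQ v)⟩

lemma FD.eq {f g : (α → R) → R} (hf : TD f) (hg : TD g) : FD (fun v => f v = g v) := by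
  obtain ⟨s, hs⟩ := hf
  obtain ⟨t, ht⟩ := hg
  exact ⟨s.equal t, fun v => by rw [Formula.realize_equal, hs, ht]⟩

lemma FD.and {P Q : (α → R) → Prop} (hP : FD P) (hQ : FD Q) : FD (fun v => P v ∧ Q v) := by
  obtain ⟨s, hs⟩ := hP
  obtain ⟨t, ht⟩ := hQ
  exact ⟨s ⊓ t, fun v => by rw [Formula.realize_inf, hs, ht]⟩

lemma FD.not {P : (α → R) → Prop} (hP : FD P) : FD (fun v => ¬ P v) := by
  obtain ⟨s, hs⟩ := hP
  exact ⟨s.not, fun v => by rw [Formula.realize_not, hs]⟩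

lemma FD.imp {P Q : (α → R) → Prop} (hP : FD P) (hQ : FD Q) : FD (fun v => P v → Q v) := by
  obtain ⟨s, hs⟩ := hP
  obtain ⟨t, ht⟩ := hQ
  exact ⟨s.imp t, fun v => by rw [Formula.realize_imp, hs, ht]⟩

lemma FD.or {P Q : (α → R) → Prop} (hP : FD P) (hQ : FD Q) : FD (fun v => P v ∨ Q v) :=
  (hP.not.imp hQ).congr fun v => by tauto

lemma FD.ex [Finite β] {P : (α → R) → (β → R) → Prop}
    (h : FD (fun w : α ⊕ β → R => P (w ∘ Sum.inl) (w ∘ Sum.inr))) :
    FD (fun v => ∃ t, P v t) := by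
  obtain ⟨φ, hφ⟩ := h
  refine ⟨φ.iExs β, fun v => ?_⟩
  rw [Formula.realize_iExs]
  refine exists_congr fun t => ?_
  rw [hφ]
  rfl

lemma FD.ex1 {P : (α → R) → R → Prop}
    (h : FD (fun w : α ⊕ Unit → R => P (w ∘ Sum.inl) (w (Sum.inr ())))) :
    FD (fun v => ∃ x, P v x) := by
  have h1 : FD (fun v => ∃ t : Unit → R, P v (t ())) :=
    FD.ex (P := fun v t => P v (t ())) h
  exact h1.congr fun v => ⟨fun ⟨t, ht⟩ => ⟨_, ht⟩, fun ⟨x, hx⟩ => ⟨fun _ => x, hx⟩⟩

lemma FD.all1 {P : (α → R) → R → Prop}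
    (h : FD (fun w : α ⊕ Unit → R => P (w ∘ Sum.inl) (w (Sum.inr ())))) :
    FD (fun v => ∀ x, P v x) := by
  have h1 : FD (fun v => ¬ ∃ x, ¬ P v x) := (FD.ex1 (P := fun v x => ¬ P v x) h.not).not
  exact h1.congr fun v => by push Not; rfl

lemma FD.true : FD (fun _ : α → R => True) := ⟨⊤, fun v => by simp⟩

lemma FD.all_fin {n : ℕ} {P : Fin n → (α → R) → Prop} (h : ∀ i, FD (P i)) :
    FD (fun v => ∀ i, P i v) := by
  induction n with
  | zero => exact FD.true.congr fun v => by simp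
  | succ n ih =>
    exact ((h 0).and (ih fun i => h i.succ)).congr fun v => by
      rw [Fin.forall_fin_succ]

lemma FD.all_finite {ι : Type} [Finite ι] {P : ι → (α → R) → Prop} (h : ∀ i, FD (P i)) :
    FD (fun v => ∀ i, P i v) := by
  obtain ⟨n, ⟨e⟩⟩ := Finite.exists_equiv_fin ι
  refine (FD.all_fin (P := fun i => P (e.symm i)) fun i => h _).congr fun v => ?_
  constructor
  · intro h i
    simpa using h (e i)
  · intro h i
    exact h _

lemma FD.dvd {f g : (α → R) → R} (hf : TD f) (hg : TD g) : FD (fun v => f v ∣ g v) := by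
  have h1 : FD (fun v => ∃ c, g v = f v * c) :=
    FD.ex1 (P := fun v c => g v = f v * c) (FD.eq hg.lift (hf.lift.mul (TD.var _)))
  exact h1

/-! ### Robinson's condition is definable -/

variable {Γ : Type} {φ : Γ → R →+* ℝ} {l : ℕ}

lemma FD.nn (hl : ∀ x : R, NN φ x ↔ ∃ z : R, x = z * z ∨ (l : R) * x = z * z)
    {f : (α → R) → R} (hf : TD f) : FD (fun v => NN φ (f v)) := by
  have h1 : FD (fun v => ∃ z : R, f v = z * z ∨ (l : R) * f v = z * z) :=
    FD.ex1 (P := fun v z => f v = z * z ∨ (l : R) * f v = z * z)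
      ((FD.eq hf.lift ((TD.var _).mul (TD.var _))).or
        (FD.eq ((TD.nat l).mul hf.lift) ((TD.var _).mul (TD.var _))))
  exact h1.congr fun v => (hl _).symm

lemma FD.tt (hl : ∀ x : R, NN φ x ↔ ∃ z : R, x = z * z ∨ (l : R) * x = z * z)
    {u v m h b t : (α → R) → R} (hu : TD u) (hv : TD v) (hm : TD m) (hh : TD h) (hb : TD b)
    (ht : TD t) : FD (fun w => TT φ (u w) (v w) (m w) (h w) (b w) (t w)) := by
  have h1 : FD (fun w => NN φ (t w) ∧ NN φ (b w - t w) ∧ ∃ x, NN φ x ∧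
      NN φ (u w - v w * x) ∧ (1 + m w * (x + 1)) ∣ (h w - t w)) := by
    refine (FD.nn hl ht).and ((FD.nn hl (hb.sub ht)).and ?_)
    refine FD.ex1 (P := fun w x => NN φ x ∧
      NN φ (u w - v w * x) ∧ (1 + m w * (x + 1)) ∣ (h w - t w)) ?_
    have hx : TD (fun w : α ⊕ Unit → R => w (Sum.inr ())) := TD.var _
    exact (FD.nn hl hx).and ((FD.nn hl (hu.lift.sub (hv.lift.mul hx))).and
      (FD.dvd (TD.one.add (hm.lift.mul (hx.add TD.one))) (hh.lift.sub ht.lift)))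
  exact h1

lemma TD.four : TD (fun _ : α → R => (4 : R)) := by simpa using TD.nat (α := α) (R := R) 4

lemma FD.natCond (hl : ∀ x : R, NN φ x ↔ ∃ z : R, x = z * z ∨ (l : R) * x = z * z)
    {n : (α → R) → R} (hn : TD n) : FD (fun w => NatCond φ (n w)) := by
  have key : FD (fun w : ((((α ⊕ Unit) ⊕ Unit) ⊕ Unit) ⊕ Unit) ⊕ Unit → R =>
      NN φ (w (Sum.inl (Sum.inl (Sum.inl (Sum.inr ()))))) ∧
      w (Sum.inl (Sum.inl (Sum.inl (Sum.inr ())))) ≠ 0 ∧
      NN φ (4 * w (Sum.inl (Sum.inl (Sum.inl (Sum.inr ()))))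
        - w (Sum.inl (Sum.inl (Sum.inl (Sum.inl (Sum.inr ())))))) ∧
      4 * w (Sum.inl (Sum.inl (Sum.inl (Sum.inr ()))))
        - w (Sum.inl (Sum.inl (Sum.inl (Sum.inl (Sum.inr ()))))) ≠ 0 ∧
      NN φ (w (Sum.inl (Sum.inl (Sum.inr ()))) - w (Sum.inr ())) ∧
      w (Sum.inl (Sum.inl (Sum.inr ()))) - w (Sum.inr ()) ≠ 0 ∧
      TT φ (w (Sum.inl (Sum.inl (Sum.inl (Sum.inl (Sum.inr ()))))))
        (w (Sum.inl (Sum.inl (Sum.inl (Sum.inr ())))))
        (w (Sum.inl (Sum.inl (Sum.inr ())))) (w (Sum.inl (Sum.inr ()))) (w (Sum.inr ())) 0 ∧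
      ∀ t, TT φ (w (Sum.inl (Sum.inl (Sum.inl (Sum.inl (Sum.inr ()))))))
        (w (Sum.inl (Sum.inl (Sum.inl (Sum.inr ())))))
        (w (Sum.inl (Sum.inl (Sum.inr ())))) (w (Sum.inl (Sum.inr ()))) (w (Sum.inr ())) t →
        t = n (((((w ∘ Sum.inl) ∘ Sum.inl) ∘ Sum.inl) ∘ Sum.inl) ∘ Sum.inl) ∨
        TT φ (w (Sum.inl (Sum.inl (Sum.inl (Sum.inl (Sum.inr ()))))))
        (w (Sum.inl (Sum.inl (Sum.inl (Sum.inr ())))))
        (w (Sum.inl (Sum.inl (Sum.inr ())))) (w (Sum.inl (Sum.inr ()))) (w (Sum.inr ()))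
          (t + 1)) := by
    refine (FD.nn hl (TD.var _)).and ((FD.eq (TD.var _) TD.zero).not.and
      ((FD.nn hl ((TD.four.mul (TD.var _)).sub (TD.var _))).and
      ((FD.eq ((TD.four.mul (TD.var _)).sub (TD.var _)) TD.zero).not.and
      ((FD.nn hl ((TD.var _).sub (TD.var _))).and
      ((FD.eq ((TD.var _).sub (TD.var _)) TD.zero).not.and
      ((FD.tt hl (TD.var _) (TD.var _) (TD.var _) (TD.var _) (TD.var _) TD.zero).and ?_))))))
    refine FD.all1 (P := fun w t => TT φ (w (Sum.inl (Sum.inl (Sum.inl (Sum.inl (Sum.inr ()))))))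
        (w (Sum.inl (Sum.inl (Sum.inl (Sum.inr ())))))
        (w (Sum.inl (Sum.inl (Sum.inr ())))) (w (Sum.inl (Sum.inr ()))) (w (Sum.inr ())) t →
        t = n (((((w ∘ Sum.inl) ∘ Sum.inl) ∘ Sum.inl) ∘ Sum.inl) ∘ Sum.inl) ∨
        TT φ (w (Sum.inl (Sum.inl (Sum.inl (Sum.inl (Sum.inr ()))))))
        (w (Sum.inl (Sum.inl (Sum.inl (Sum.inr ())))))
        (w (Sum.inl (Sum.inl (Sum.inr ())))) (w (Sum.inl (Sum.inr ()))) (w (Sum.inr ()))
          (t + 1)) ?_
    have hN := (((((hn.lift (β := Unit)).lift (β := Unit)).lift (β := Unit)).lift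
      (β := Unit)).lift (β := Unit)).lift (β := Unit)
    exact (FD.tt hl (TD.var _) (TD.var _) (TD.var _) (TD.var _) (TD.var _) (TD.var _)).imp
      ((FD.eq (TD.var _) hN).or
      (FD.tt hl (TD.var _) (TD.var _) (TD.var _) (TD.var _) (TD.var _) ((TD.var _).add TD.one)))
  exact FD.ex1 (FD.ex1 (FD.ex1 (FD.ex1 (FD.ex1 key))))

end Def

end Pool.Agent.Work.MP_96f494_lc
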