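import Pool.Agent.Work.MP_96f494_lc.Int

/-!
The Haar measure on `Gal(ℚ^tr/ℚ)`: almost every `σ` fixes `2 cos (2π/p)` for infinitely many
primes `p` and moves the square root of some prime.
-/

namespace Pool.Agent.Work.MP_96f494_lc

open Polynomial IntermediateField MeasureTheory

lemma Qtr_le_Qbar : Qtr ≤ Qbar := by
  intro x hx
  exact mem_algebraicClosure_iff.2 (mem_Qtr.1 hx).1

/-- Restriction of automorphisms of `Qbar` to `Qtr`. -/
lemma restrict_gal (τ : Qbar ≃ₐ[ℚ] Qbar) : ∃ g : Qtr ≃ₐ[ℚ] Qtr, ∀ (x : Qtr) (a : Qbar),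
    (a : ℂ) = x → ((g x : Qtr) : ℂ) = ((τ a : Qbar) : ℂ) := by
  let : Algebra Qtr Qbar := (inclusion Qtr_le_Qbar).toRingHom.toAlgebra
  have : IsScalarTower ℚ Qtr Qbar := IsScalarTower.of_algebraMap_eq fun q => rfl
  refine ⟨AlgEquiv.restrictNormal τ Qtr, fun x a ha => ?_⟩
  have h1 := AlgEquiv.restrictNormal_commutes τ Qtr x
  have h2 : algebraMap Qtr Qbar x = a := Subtype.ext ha.symm
  rw [h2] at h1
  rw [← h1]
  rfl

lemma om_pow {n p k : ℕ} (hp : 0 < p) (hk : 0 < k) (hn : n = k * p) : om p = om n ^ k := by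
  unfold om
  rw [← Complex.exp_nat_mul]
  congr 1
  have hp' : (p : ℂ) ≠ 0 := by exact_mod_cast hp.ne'
  have hk' : (k : ℂ) ≠ 0 := by exact_mod_cast hk.ne'
  rw [hn]
  push_cast
  field_simp

/-- The actions on `2 cos (2π/p)` for different primes are independent. -/
lemma indep (S : Finset ℕ) (hS : ∀ p ∈ S, p.Prime) (G : ℕ → (Qtr ≃ₐ[ℚ] Qtr)) :
    ∃ g : Qtr ≃ₐ[ℚ] Qtr, ∀ p ∈ S, g (cc p) = G p (cc p) := by
  classical
  have h1 : ∀ p : ℕ, ∃ a : ℕ, p ∈ S → (a.Coprime p ∧ emb (G p (cc p)) = 2 * (om p ^ a).re) := by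
    intro p
    by_cases hp : p ∈ S
    · obtain ⟨z, hz, hz2⟩ := cc_conj (hS p hp).pos (G p)
      have : NeZero p := ⟨(hS p hp).ne_zero⟩
      obtain ⟨a, ha, ha2⟩ := (om_prim (hS p hp).pos).eq_pow_of_pow_eq_one hz.pow_eq_one
      refine ⟨a, fun _ => ⟨?_, by rw [ha2]; exact hz2⟩⟩
      rw [← ha2] at hz
      exact ((om_prim (hS p hp).pos).pow_iff_coprime (hS p hp).pos a).1 hz
    · exact ⟨0, fun h => absurd h hp⟩
  choose a ha using h1
  -- Chinese remainder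
  obtain ⟨A, hA⟩ : ∃ A : ℕ, ∀ p ∈ S, A ≡ a p [MOD p] := by
    have hpair : Set.Pairwise (S : Set ℕ) (Function.onFun Nat.Coprime (fun p : ℕ => p)) := by
      intro p hp q hq hpq
      exact (Nat.coprime_primes (hS p hp) (hS q hq)).2 hpq
    have := Nat.chineseRemainderOfFinset a (fun p => p) S (fun p hp => (hS p hp).ne_zero) hpair
    exact ⟨this.1, this.2⟩
  set n := ∏ p ∈ S, p with hn
  have hnpos : 0 < n := Finset.prod_pos fun p hp => (hS p hp).pos
  have hAp : ∀ p ∈ S, A.Coprime p := by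
    intro p hp
    have := (ha p hp).1
    rw [Nat.Coprime, Nat.ModEq.gcd_eq (hA p hp)]
    exact this
  have hAn : A.Coprime n := Nat.Coprime.prod_right hAp
  have hprim : IsPrimitiveRoot (om n ^ A) n := (om_prim hnpos).pow_of_coprime A hAn
  have hint : IsIntegral ℤ (om n) := (om_prim hnpos).isIntegral hnpos
  have hmin : aeval (om n ^ A) (minpoly ℚ (om n)) = 0 := by
    rw [← cyclotomic_eq_minpoly_rat (om_prim hnpos) hnpos, cyclotomic_eq_minpoly_rat hprim hnpos]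
    exact minpoly.aeval _ _
  obtain ⟨τ, hτ⟩ := exists_tau ⟨om n, isAlg_of_int hint⟩ _ hmin
  set b : Qbar := ⟨om n, isAlg_of_int hint⟩ with hb
  obtain ⟨g, hg⟩ := restrict_gal τ
  refine ⟨g, fun p hp => ?_⟩
  have hpp := (hS p hp).pos
  obtain ⟨k, hk⟩ : p ∣ n := Finset.dvd_prod_of_mem _ hp
  have hk0 : 0 < k := by
    rcases Nat.eq_zero_or_pos k with h | h
    · rw [h, mul_zero] at hk; omega
    · exact h
  have hop : om p = om n ^ k := om_pow hpp hk0 (by rw [hk]; ring)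
  have e1 : ((b ^ k + (b ^ k)⁻¹ : Qbar) : ℂ) = (cc p : Qtr) := by
    rw [cc_coe hpp, hop]; rfl
  have e2 := hg (cc p) _ e1
  rw [map_add, map_inv₀, map_pow] at e2
  have e3 : (((τ b) ^ k : Qbar) : ℂ) = om p ^ A := by
    have : (((τ b) ^ k : Qbar) : ℂ) = ((τ b : Qbar) : ℂ) ^ k := rfl
    rw [this, hτ, hop, ← pow_mul, ← pow_mul, mul_comm]
  have e4 : om p ^ A = om p ^ a p := by
    exact pow_eq_pow_of_modEq (hA p hp) (om_prim hpp).pow_eq_one
  have e5 : ((g (cc p) : Qtr) : ℂ) = om p ^ a p + (om p ^ a p)⁻¹ := by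
    rw [e2, ← e4, ← e3]
    rfl
  apply emb_injective
  rw [(ha p hp).2]
  show ((g (cc p) : Qtr) : ℂ).re = _
  rw [e5, inv_eq_conj hpp (by rw [← pow_mul, mul_comm, pow_mul, (om_prim hpp).pow_eq_one, one_pow])]
  simp

noncomputable instance : MeasurableSpace (Qtr ≃ₐ[ℚ] Qtr) := borel _
instance : BorelSpace (Qtr ≃ₐ[ℚ] Qtr) := ⟨rfl⟩

/-- The normalised Haar measure on `Gal(ℚ^tr/ℚ)`. -/
noncomputable def haarG : Measure (Qtr ≃ₐ[ℚ] Qtr) :=
  Measure.haarMeasure (⊤ : TopologicalSpace.PositiveCompacts (Qtr ≃ₐ[ℚ] Qtr))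

instance : IsProbabilityMeasure haarG :=
  ⟨by
    have := Measure.haarMeasure_self (K₀ := (⊤ : TopologicalSpace.PositiveCompacts
      (Qtr ≃ₐ[ℚ] Qtr)))
    simpa [haarG] using this⟩

instance : haarG.IsMulLeftInvariant := by unfold haarG; infer_instance

/-- The set of `σ` fixing `x` is a clopen subgroup. -/
lemma stab_meas (x : Qtr) :
    MeasurableSet ((MulAction.stabilizer (Qtr ≃ₐ[ℚ] Qtr) x : Set (Qtr ≃ₐ[ℚ] Qtr))) :=
  (stabilizer_isOpen_of_isIntegral x).measurableSet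

/-- The orbit of an element is finite. -/
lemma orbit_finite (x : Qtr) : (MulAction.orbit (Qtr ≃ₐ[ℚ] Qtr) x).Finite := by
  have hfin : ((minpoly ℚ x).rootSet ℂ).Finite := rootSet_finite _ _
  refine Set.Finite.of_finite_image (f := fun y : Qtr => (y : ℂ)) (hfin.subset ?_)
    Subtype.val_injective.injOn
  rintro _ ⟨_, ⟨g, rfl⟩, rfl⟩
  rw [mem_rootSet]
  exact ⟨minpoly.ne_zero (isIntegralQ x), aeval_gal x g⟩

/-- Measure of the stabiliser of a tuple. -/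
lemma measure_stab {ι : Type} [Finite ι] (x : ι → Qtr) :
    haarG {g | ∀ i, g (x i) = x i} =
      ((MulAction.orbit (Qtr ≃ₐ[ℚ] Qtr) x).ncard : ENNReal)⁻¹ := by
  have hset : {g : Qtr ≃ₐ[ℚ] Qtr | ∀ i, g (x i) = x i}
      = (MulAction.stabilizer (Qtr ≃ₐ[ℚ] Qtr) x : Set (Qtr ≃ₐ[ℚ] Qtr)) := by
    ext g
    simp only [Set.mem_ofPred_eq, SetLike.mem_coe, MulAction.mem_stabilizer_iff]
    constructor
    · intro h
      funext i
      exact h i
    · intro h i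
      exact congrFun h i
  have hmeas : MeasurableSet (MulAction.stabilizer (Qtr ≃ₐ[ℚ] Qtr) x : Set (Qtr ≃ₐ[ℚ] Qtr)) := by
    rw [← hset]
    have : {g : Qtr ≃ₐ[ℚ] Qtr | ∀ i, g (x i) = x i}
        = ⋂ i, (MulAction.stabilizer (Qtr ≃ₐ[ℚ] Qtr) (x i) : Set (Qtr ≃ₐ[ℚ] Qtr)) := by
      ext g
      simp [MulAction.mem_stabilizer_iff]
    rw [this]
    exact MeasurableSet.iInter fun i => stab_meas (x i)
  have hfin : (MulAction.orbit (Qtr ≃ₐ[ℚ] Qtr) x).Finite := by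
    refine (Set.Finite.pi' (t := fun i => MulAction.orbit (Qtr ≃ₐ[ℚ] Qtr) (x i))
      (fun i => orbit_finite (x i))).subset ?_
    rintro _ ⟨g, rfl⟩ i
    exact ⟨g, rfl⟩
  have hidx := MulAction.index_stabilizer (Qtr ≃ₐ[ℚ] Qtr) x
  have hne : (MulAction.stabilizer (Qtr ≃ₐ[ℚ] Qtr) x).index ≠ 0 := by
    rw [hidx]
    exact Set.ncard_ne_zero_of_mem (MulAction.mem_orbit_self x) hfin
  have : (MulAction.stabilizer (Qtr ≃ₐ[ℚ] Qtr) x).FiniteIndex := ⟨hne⟩
  have h1 := Subgroup.index_mul_measure (MulAction.stabilizer (Qtr ≃ₐ[ℚ] Qtr) x) hmeas haarG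
  rw [measure_univ, hidx] at h1
  rw [hset]
  rw [mul_comm] at h1
  exact ENNReal.eq_inv_of_mul_eq_one_left h1

lemma measure_stab_one (x : Qtr) :
    haarG {g | g x = x} = ((MulAction.orbit (Qtr ≃ₐ[ℚ] Qtr) x).ncard : ENNReal)⁻¹ := by
  have h := measure_stab (ι := Unit) (fun _ => x)
  have e1 : {g : Qtr ≃ₐ[ℚ] Qtr | ∀ i : Unit, g ((fun _ => x) i) = (fun _ => x) i}
      = {g | g x = x} := by
    ext g; simp
  rw [e1] at h
  rw [h]
  congr 2
  have : (fun y : Unit → Qtr => y ()) '' (MulAction.orbit (Qtr ≃ₐ[ℚ] Qtr) (fun _ : Unit => x))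
      = MulAction.orbit (Qtr ≃ₐ[ℚ] Qtr) x := by
    ext y
    constructor
    · rintro ⟨_, ⟨g, rfl⟩, rfl⟩
      exact ⟨g, rfl⟩
    · rintro ⟨g, rfl⟩
      exact ⟨_, ⟨g, rfl⟩, rfl⟩
  rw [← this, Set.ncard_image_of_injective]
  intro a b hab
  funext i
  exact hab

/-- The event that `σ` fixes `2 cos (2π/n)`, for prime `n`. -/
def ev (n : ℕ) : Set (Qtr ≃ₐ[ℚ] Qtr) := {g | n.Prime ∧ g (cc n) = cc n}

lemma ev_meas (n : ℕ) : MeasurableSet (ev n) := by
  by_cases hn : n.Prime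
  · have : ev n = (MulAction.stabilizer (Qtr ≃ₐ[ℚ] Qtr) (cc n) : Set (Qtr ≃ₐ[ℚ] Qtr)) := by
      ext g
      simp [ev, hn, MulAction.mem_stabilizer_iff]
    rw [this]
    exact stab_meas _
  · have : ev n = ∅ := by
      ext g
      simp [ev, hn]
    rw [this]
    exact MeasurableSet.empty

lemma ev_indep : ProbabilityTheory.iIndepSet ev haarG := by
  classical
  rw [ProbabilityTheory.iIndepSet_iff_meas_biInter ev_meas]
  intro S
  by_cases hS : ∀ p ∈ S, p.Prime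
  · have e1 : (⋂ i ∈ S, ev i) = {g : Qtr ≃ₐ[ℚ] Qtr | ∀ i : {p // p ∈ S},
        g ((fun i : {p // p ∈ S} => cc i) i) = (fun i : {p // p ∈ S} => cc i) i} := by
      ext g
      simp only [Set.mem_iInter, ev, Set.mem_ofPred_eq]
      constructor
      · rintro h ⟨i, hi⟩
        exact (h i hi).2
      · intro h i hi
        exact ⟨hS i hi, h ⟨i, hi⟩⟩
    rw [e1, measure_stab]
    have e2 : ∀ i ∈ S, haarG (ev i) = ((MulAction.orbit (Qtr ≃ₐ[ℚ] Qtr) (cc i)).ncard : ENNReal)⁻¹ := by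
      intro i hi
      rw [← measure_stab_one]
      congr 1
      ext g
      simp [ev, hS i hi]
    rw [Finset.prod_congr rfl e2, ← ENNReal.prod_inv_distrib (fun _ _ _ _ _ => Or.inr (by simp))]
    congr 1
    have e3 : MulAction.orbit (Qtr ≃ₐ[ℚ] Qtr) (fun i : {p // p ∈ S} => cc (i : ℕ))
        = Set.univ.pi fun i : {p // p ∈ S} => MulAction.orbit (Qtr ≃ₐ[ℚ] Qtr) (cc (i : ℕ)) := by
      ext y
      simp only [Set.mem_pi, Set.mem_univ, forall_true_left]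
      constructor
      · rintro ⟨g, rfl⟩ i
        exact ⟨g, rfl⟩
      · intro h
        choose G hG using h
        obtain ⟨g, hg⟩ := indep S hS (fun p => if hp : p ∈ S then G ⟨p, hp⟩ else 1)
        refine ⟨g, ?_⟩
        funext i
        have h1 := hg i i.2
        simp only [i.2, dite_true] at h1
        exact h1.trans (hG i)
    have e4 : (Set.univ.pi fun i : {p // p ∈ S} => MulAction.orbit (Qtr ≃ₐ[ℚ] Qtr) (cc (i : ℕ))).ncard
        = ∏ i ∈ S, (MulAction.orbit (Qtr ≃ₐ[ℚ] Qtr) (cc i)).ncard := by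
      rw [← Finset.prod_coe_sort S (fun i => (MulAction.orbit (Qtr ≃ₐ[ℚ] Qtr) (cc i)).ncard)]
      rw [Set.ncard_def, Set.encard_pi_eq_prod_encard]
      have h2 : ∀ i : {p // p ∈ S}, (MulAction.orbit (Qtr ≃ₐ[ℚ] Qtr) (cc (i : ℕ))).encard
          = (((MulAction.orbit (Qtr ≃ₐ[ℚ] Qtr) (cc (i : ℕ))).ncard : ℕ) : ℕ∞) := fun i =>
        (Set.Finite.cast_ncard_eq (orbit_finite (cc (i : ℕ)))).symm
      rw [Finset.prod_congr rfl (fun i _ => h2 i), ← Nat.cast_prod]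
      rfl
    rw [e3, e4]
    push_cast
    rfl
  · push Not at hS
    obtain ⟨p, hp, hpp⟩ := hS
    have e0 : ev p = ∅ := by
      ext g
      simp [ev, hpp]
    rw [Finset.prod_eq_zero hp (by rw [e0]; simp)]
    have : (⋂ i ∈ S, ev i) ⊆ ∅ := by
      rw [← e0]
      exact Set.biInter_subset_of_mem hp
    exact measure_mono_null this (by simp)

end Pool.Agent.Work.MP_96f494_lc
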