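import Mathlib

/-!
The field `ℚ^tr` of totally real algebraic numbers, inside `ℂ`, and the rings
`ℤ^tr(σ)` of totally real algebraic integers fixed by `σ`.
-/

namespace Pool.Agent.Work.MP_96f494_lc

open Polynomial IntermediateField

/-- A complex number is totally real algebraic if it is algebraic over `ℚ` and all its complex
conjugates over `ℚ` (the complex roots of its minimal polynomial) are real. -/
def IsTotallyReal (x : ℂ) : Prop :=
  IsAlgebraic ℚ x ∧ ∀ z : ℂ, aeval z (minpoly ℚ x) = 0 → z.im = 0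

/-- The algebraic closure of `ℚ` in `ℂ`. -/
noncomputable abbrev Qbar : IntermediateField ℚ ℂ := algebraicClosure ℚ ℂ

instance : IsAlgClosure ℚ Qbar := algebraicClosure.isAlgClosure ℚ ℂ
instance : Normal ℚ Qbar := IsAlgClosure.normal ℚ Qbar

lemma isTotallyReal_iff (x : ℂ) : IsTotallyReal x ↔
    ∃ a : Qbar, (a : ℂ) = x ∧ ∀ τ : Qbar ≃ₐ[ℚ] Qbar, ((τ a : Qbar) : ℂ).im = 0 := by
  constructor
  · rintro ⟨h1, h2⟩
    refine ⟨⟨x, mem_algebraicClosure_iff.2 h1⟩, rfl, fun τ => h2 _ ?_⟩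
    set a : Qbar := ⟨x, mem_algebraicClosure_iff.2 h1⟩ with ha
    have e1 : minpoly ℚ x = minpoly ℚ a :=
      (minpoly.algebraMap_eq (algebraMap Qbar ℂ).injective a)
    have e2 : minpoly ℚ a = minpoly ℚ (τ a) := (minpoly.algEquiv_eq τ a).symm
    have e3 : aeval (τ a) (minpoly ℚ (τ a)) = 0 := minpoly.aeval _ _
    rw [e1, e2]
    have := congrArg (algebraMap Qbar ℂ) e3
    rw [map_zero, ← aeval_algebraMap_apply] at this
    exact this
  · rintro ⟨a, rfl, h⟩
    have hint : IsIntegral ℚ (a : ℂ) := a.2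
    refine ⟨hint.isAlgebraic, fun z hz => ?_⟩
    have hzalg : IsAlgebraic ℚ z :=
      ⟨minpoly ℚ (a : ℂ), minpoly.ne_zero hint, hz⟩
    set b : Qbar := ⟨z, mem_algebraicClosure_iff.2 hzalg⟩ with hb
    have e1 : minpoly ℚ (a : ℂ) = minpoly ℚ a :=
      (minpoly.algebraMap_eq (algebraMap Qbar ℂ).injective a)
    have e2 : minpoly ℚ z = minpoly ℚ b :=
      (minpoly.algebraMap_eq (algebraMap Qbar ℂ).injective b)
    have e3 : minpoly ℚ (a : ℂ) = minpoly ℚ z :=
      minpoly.eq_of_irreducible_of_monic (minpoly.irreducible hint) hz (minpoly.monic hint)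
    have e4 : IsConjRoot ℚ b a := by
      show minpoly ℚ b = minpoly ℚ a
      rw [← e2, ← e3, e1]
    obtain ⟨τ, hτ⟩ := isConjRoot_iff_exists_algEquiv.1 e4
    have := h τ
    rw [hτ] at this
    exact this

lemma IsTotallyReal.rat (q : ℚ) : IsTotallyReal (algebraMap ℚ ℂ q) := by
  rw [isTotallyReal_iff]
  refine ⟨algebraMap ℚ Qbar q, rfl, fun τ => ?_⟩
  rw [AlgEquiv.commutes]
  show (algebraMap ℚ ℂ q).im = 0
  simp

lemma IsTotallyReal.add {x y : ℂ} (hx : IsTotallyReal x) (hy : IsTotallyReal y) :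
    IsTotallyReal (x + y) := by
  rw [isTotallyReal_iff] at *
  obtain ⟨a, rfl, ha⟩ := hx
  obtain ⟨b, rfl, hb⟩ := hy
  refine ⟨a + b, rfl, fun τ => ?_⟩
  rw [map_add]
  show ((τ a : ℂ) + (τ b : ℂ)).im = 0
  rw [Complex.add_im, ha, hb, add_zero]

lemma IsTotallyReal.mul {x y : ℂ} (hx : IsTotallyReal x) (hy : IsTotallyReal y) :
    IsTotallyReal (x * y) := by
  rw [isTotallyReal_iff] at *
  obtain ⟨a, rfl, ha⟩ := hx
  obtain ⟨b, rfl, hb⟩ := hy
  refine ⟨a * b, rfl, fun τ => ?_⟩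
  rw [map_mul]
  show ((τ a : ℂ) * (τ b : ℂ)).im = 0
  rw [Complex.mul_im, ha, hb, mul_zero, zero_mul, add_zero]

lemma IsTotallyReal.inv {x : ℂ} (hx : IsTotallyReal x) : IsTotallyReal x⁻¹ := by
  rw [isTotallyReal_iff] at *
  obtain ⟨a, rfl, ha⟩ := hx
  refine ⟨a⁻¹, rfl, fun τ => ?_⟩
  rw [map_inv₀]
  show ((τ a : ℂ)⁻¹).im = 0
  rw [Complex.inv_im, ha]
  simp

/-- The field `ℚ^tr` of totally real algebraic numbers. -/
def Qtr : IntermediateField ℚ ℂ where
  carrier := {x | IsTotallyReal x}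
  mul_mem' := fun hx hy => hx.mul hy
  add_mem' := fun hx hy => hx.add hy
  algebraMap_mem' := fun q => IsTotallyReal.rat q
  inv_mem' := fun _ hx => hx.inv

lemma mem_Qtr {x : ℂ} : x ∈ Qtr ↔ IsTotallyReal x := Iff.rfl

instance : Algebra.IsAlgebraic ℚ Qtr :=
  ⟨fun x => by
    have h : IsAlgebraic ℚ (x : ℂ) := (mem_Qtr.1 x.2).1
    exact isAlgebraic_iff.2 h⟩

/-- The minimal polynomial of an element of `Qtr` computed in `ℂ`. -/
lemma minpoly_coe (x : Qtr) : minpoly ℚ (x : ℂ) = minpoly ℚ x :=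
  minpoly.algebraMap_eq (algebraMap Qtr ℂ).injective x

lemma isIntegralQ (x : Qtr) : IsIntegral ℚ x := (Algebra.IsAlgebraic.isAlgebraic x).isIntegral

/-- Complex conjugates of a totally real number are totally real. -/
lemma conj_mem (x : Qtr) (z : ℂ) (hz : aeval z (minpoly ℚ x) = 0) : z ∈ Qtr := by
  have hx := mem_Qtr.1 x.2
  have hint : IsIntegral ℚ (x : ℂ) := hx.1.isIntegral
  rw [← minpoly_coe] at hz
  have e3 : minpoly ℚ (x : ℂ) = minpoly ℚ z :=
    minpoly.eq_of_irreducible_of_monic (minpoly.irreducible hint) hz (minpoly.monic hint)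
  rw [mem_Qtr]
  refine ⟨⟨minpoly ℚ (x : ℂ), minpoly.ne_zero hint, hz⟩, ?_⟩
  rw [← e3]
  exact hx.2

instance : Normal ℚ Qtr := by
  refine normal_iff.2 fun x => ⟨isIntegralQ x, ?_⟩
  refine splits_of_splits (IsAlgClosed.splits _) ?_
  intro z hz
  rw [mem_rootSet] at hz
  exact conj_mem x z hz.2

instance : IsGalois ℚ Qtr := IsGalois.mk

/-- The Galois group of `Qtr` acts transitively on the conjugates. -/
lemma exists_gal (x : Qtr) (z : ℂ) (hz : aeval z (minpoly ℚ x) = 0) :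
    ∃ g : Qtr ≃ₐ[ℚ] Qtr, ((g x : Qtr) : ℂ) = z := by
  obtain ⟨y, hy⟩ : ∃ y : Qtr, (y : ℂ) = z := ⟨⟨z, conj_mem x z hz⟩, rfl⟩
  have h1 : aeval y (minpoly ℚ x) = 0 := by
    apply (algebraMap Qtr ℂ).injective
    rw [map_zero, ← aeval_algebraMap_apply]
    rw [← hy] at hz
    exact hz
  have h2 : minpoly ℚ x = minpoly ℚ y :=
    minpoly.eq_of_irreducible_of_monic (minpoly.irreducible (isIntegralQ x)) h1
      (minpoly.monic (isIntegralQ x))
  obtain ⟨g, hg⟩ := isConjRoot_iff_exists_algEquiv.1 (show IsConjRoot ℚ y x from h2.symm)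
  exact ⟨g, by rw [hg, hy]⟩

/-- Conversely, images under the Galois group are conjugates. -/
lemma aeval_gal (x : Qtr) (g : Qtr ≃ₐ[ℚ] Qtr) :
    aeval ((g x : Qtr) : ℂ) (minpoly ℚ x) = 0 := by
  have h1 : aeval (g x) (minpoly ℚ x) = 0 := by
    rw [aeval_algHom_apply, minpoly.aeval, map_zero]
  have := congrArg (algebraMap Qtr ℂ) h1
  rw [map_zero, ← aeval_algebraMap_apply] at this
  exact this

lemma im_zero (x : Qtr) : (x : ℂ).im = 0 :=
  (mem_Qtr.1 x.2).2 _ (minpoly.aeval ℚ (x : ℂ))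

/-- The inclusion of `Qtr` into the reals. -/
noncomputable def emb : Qtr →+* ℝ where
  toFun x := (x : ℂ).re
  map_one' := by simp
  map_mul' x y := by
    show ((x : ℂ) * (y : ℂ)).re = _
    rw [Complex.mul_re, im_zero, im_zero]; ring
  map_zero' := by simp
  map_add' x y := by
    show ((x : ℂ) + (y : ℂ)).re = _
    rw [Complex.add_re]

lemma emb_coe (x : Qtr) : ((emb x : ℝ) : ℂ) = x := by
  apply Complex.ext
  · simp [emb]
  · rw [im_zero]; simp

lemma emb_injective : Function.Injective emb := emb.injective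

/-- Every element of `Qbar` fixed algebraic conjugation: images of `x : Qtr` under `Gal(Qbar/ℚ)`
are images under `Gal(Qtr/ℚ)`. -/
lemma exists_gal_of_qbar (x : Qtr) (a : Qbar) (ha : (a : ℂ) = x) (τ : Qbar ≃ₐ[ℚ] Qbar) :
    ∃ g : Qtr ≃ₐ[ℚ] Qtr, ((g x : Qtr) : ℂ) = ((τ a : Qbar) : ℂ) := by
  apply exists_gal
  have e1 : minpoly ℚ a = minpoly ℚ x := by
    rw [← minpoly_coe, ← ha]
    exact (minpoly.algebraMap_eq (algebraMap Qbar ℂ).injective a).symm
  rw [← e1]
  have h1 : aeval (τ a) (minpoly ℚ a) = 0 := by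
    rw [aeval_algHom_apply, minpoly.aeval, map_zero]
  have := congrArg (algebraMap Qbar ℂ) h1
  rw [map_zero, ← aeval_algebraMap_apply] at this
  exact this

lemma real_of_sq {w : ℂ} {r : ℝ} (hr : 0 ≤ r) (h : w ^ 2 = (r : ℂ)) : w.im = 0 := by
  have h1 := congrArg Complex.re h
  have h2 := congrArg Complex.im h
  rw [pow_two, Complex.mul_re, Complex.ofReal_re] at h1
  rw [pow_two, Complex.mul_im, Complex.ofReal_im] at h2
  have h3 : w.re * w.im = 0 := by linarith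
  rcases mul_eq_zero.1 h3 with h4 | h4
  · rw [h4] at h1
    nlinarith [sq_nonneg w.im]
  · exact h4

/-- Totally nonnegative elements of `Qtr` are squares. -/
lemma exists_sqrt (x : Qtr) (hx : ∀ g : Qtr ≃ₐ[ℚ] Qtr, 0 ≤ emb (g x)) :
    ∃ z : Qtr, z ^ 2 = x := by
  have h0 : 0 ≤ emb x := by simpa using hx 1
  set w : ℂ := ((Real.sqrt (emb x) : ℝ) : ℂ) with hw
  have hw2 : w ^ 2 = (x : ℂ) := by
    rw [hw, ← emb_coe x]
    norm_cast
    exact Real.sq_sqrt h0
  have halg : IsAlgebraic ℚ w := by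
    have h1 : IsAlgebraic ℚ (w ^ 2) := by rw [hw2]; exact (mem_Qtr.1 x.2).1
    exact (isAlgebraic_iff_isIntegral.2 ((isAlgebraic_iff_isIntegral.1 h1).of_pow (by norm_num)))
  have hTR : IsTotallyReal w := by
    rw [isTotallyReal_iff]
    refine ⟨⟨w, mem_algebraicClosure_iff.2 halg⟩, rfl, fun τ => ?_⟩
    set a : Qbar := ⟨w, mem_algebraicClosure_iff.2 halg⟩ with ha
    obtain ⟨g, hg⟩ := exists_gal_of_qbar x (a ^ 2) (by exact hw2) τ
    rw [map_pow] at hg
    have hg' : ((τ a : Qbar) : ℂ) ^ 2 = ((emb (g x) : ℝ) : ℂ) := by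
      rw [emb_coe, hg]; rfl
    exact real_of_sq (hx g) hg'
  refine ⟨⟨w, hTR⟩, ?_⟩
  apply Subtype.ext
  exact hw2

end Pool.Agent.Work.MP_96f494_lc
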