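import Pool.Agent.Work.MP_96f494_lc.Logic

/-!
A ring in which the natural numbers are defined by Robinson's condition is undecidable.
-/

namespace Pool.Agent.Work.MP_96f494_lc

open FirstOrder FirstOrder.Language FirstOrder.Ring
open Pool.Agent.Work.MP_4f56fb_lc (KK kk_dioph kk_not_computable dioph_fin)

section

variable {R : Type} [CommRing R] [CompatibleRing R]

lemma poly_term {γ : Type} (p : Poly γ) : ∃ t : Language.ring.Term γ,
    ∀ v : γ → ℕ, t.realize (fun a => ((v a : ℕ) : R)) = ((p v : ℤ) : R) := by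
  induction p using Poly.induction with
  | H1 i => exact ⟨Term.var i, fun v => by simp⟩
  | H2 n =>
    obtain ⟨t, ht⟩ := TD.int (R := R) (α := γ) n
    exact ⟨t, fun v => by rw [ht]; simp⟩
  | H3 f g hf hg =>
    obtain ⟨s, hs⟩ := hf
    obtain ⟨t, ht⟩ := hg
    exact ⟨s + -t, fun v => by rw [realize_add, realize_neg, hs, ht]; simp [sub_eq_add_neg]⟩
  | H4 f g hf hg =>
    obtain ⟨s, hs⟩ := hf
    obtain ⟨t, ht⟩ := hg
    exact ⟨s * t, fun v => by rw [realize_mul, hs, ht]; simp⟩

/-- The halting set is definable. -/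
lemma kk_formula [CharZero R] {Γ : Type} {φ : Γ → R →+* ℝ} {l : ℕ}
    (hl : ∀ x : R, NN φ x ↔ ∃ z : R, x = z * z ∨ (l : R) * x = z * z)
    (hN : ∀ n : R, NatCond φ n ↔ ∃ k : ℕ, n = k) :
    ∃ ψ : Language.ring.Formula Unit, ∀ m : ℕ, ψ.Realize (fun _ => ((m : ℕ) : R)) ↔ KK m := by
  obtain ⟨β, hβ, p, hp⟩ := dioph_fin kk_dioph
  obtain ⟨t, ht⟩ := poly_term (R := R) p
  have h1 : FD (fun v : Unit → R => ∃ y : β → R, (∀ b, NatCond φ (y b)) ∧
      t.realize (Sum.elim v y) = 0) := by
    refine FD.ex (P := fun v y => (∀ b, NatCond φ (y b)) ∧ t.realize (Sum.elim v y) = 0) ?_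
    refine FD.and ?_ ?_
    · refine FD.all_finite fun b => ?_
      exact FD.natCond hl (TD.var (Sum.inr b))
    · refine FD.eq ⟨t, fun w => ?_⟩ TD.zero
      show _ = Term.realize (Sum.elim (w ∘ Sum.inl) (w ∘ Sum.inr)) t
      rw [Sum.elim_comp_inl_inr]
  obtain ⟨ψ, hψ⟩ := h1
  refine ⟨ψ, fun m => ?_⟩
  rw [hψ]
  have h2 := hp (fun _ => m)
  have h3 : KK m ↔ ∃ y : β → ℕ, p (Sum.elim (fun _ => m) y) = 0 := h2
  rw [h3]
  have hcast : ∀ y : β → ℕ, (Sum.elim (fun _ : Unit => ((m : ℕ) : R)) (fun b => ((y b : ℕ) : R)))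
      = fun a => (((Sum.elim (fun _ : Unit => m) y) a : ℕ) : R) := by
    intro y
    funext a
    rcases a with a | a <;> rfl
  constructor
  · rintro ⟨y, hy, hy2⟩
    have h4 : ∀ b, ∃ k : ℕ, y b = k := fun b => (hN _).1 (hy b)
    choose k hk using h4
    have h5 : y = fun b => ((k b : ℕ) : R) := funext hk
    refine ⟨k, ?_⟩
    rw [h5, hcast, ht] at hy2
    exact_mod_cast hy2
  · rintro ⟨y, hy⟩
    refine ⟨fun b => ((y b : ℕ) : R), fun b => (hN _).2 ⟨_, rfl⟩, ?_⟩
    rw [hcast, ht, hy]
    simp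

/-- Numerals. -/
def numT : ℕ → Language.ring.Term (Empty ⊕ Fin 1)
  | 0 => .func ringFunc.zero Fin.elim0
  | n + 1 => .func ringFunc.add ![numT n, .func ringFunc.one Fin.elim0]

lemma realize_numT (n : ℕ) (v : Empty ⊕ Fin 1 → R) : (numT n).realize v = ((n : ℕ) : R) := by
  induction n with
  | zero =>
    rw [numT, Term.realize_func, Nat.cast_zero]
    exact CompatibleRing.funMap_zero _
  | succ n ih =>
    rw [numT, Term.realize_func, Nat.cast_succ]
    refine (CompatibleRing.funMap_add _).trans ?_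
    simp only [Matrix.cons_val_zero, Matrix.cons_val_one]
    rw [ih, Term.realize_func]
    congr 1
    exact CompatibleRing.funMap_one _

/-- The code of the numerals is computed by primitive recursion. -/
lemma codeTerm_numT (n : ℕ) : codeTerm (numT n) =
    Nat.rec (Nat.pair 1 0) (fun _ c => Nat.pair 3 (Nat.pair c (Nat.pair 1 1))) n := by
  induction n with
  | zero => rfl
  | succ n ih =>
    show Nat.pair 3 (Nat.pair (codeTerm (numT n)) (Nat.pair 1 1)) = _
    rw [ih]

lemma primrec_numT : Primrec (fun n : ℕ => codeTerm (numT n)) := by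
  have h : Primrec (fun n : ℕ => (Nat.rec (Nat.pair 1 0)
      (fun _ c => Nat.pair 3 (Nat.pair c (Nat.pair 1 1))) n : ℕ)) := by
    refine Primrec.nat_rec₁ _ ?_
    exact Primrec₂.natPair.comp (Primrec.const 3)
      (Primrec₂.natPair.comp Primrec.snd (Primrec.const _))
  exact h.of_eq fun n => (codeTerm_numT n).symm

/-- The sentence `∀ x (x = m → ψ x)`. -/
def sent (ψ : Language.ring.BoundedFormula Empty 1) (m : ℕ) : Language.ring.Sentence :=
  BoundedFormula.all (n := 0)
    (BoundedFormula.imp (BoundedFormula.equal (Term.var (Sum.inr 0)) (numT m)) ψ)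

lemma primrec_sent (ψ : Language.ring.BoundedFormula Empty 1) :
    Primrec (fun m => godel (sent ψ m)) := by
  have : Primrec (fun m => Nat.pair 3 (Nat.pair 2 (Nat.pair (Nat.pair 1 (Nat.pair
      (codeTerm (Term.var (Sum.inr 0) : Language.ring.Term (Empty ⊕ Fin 1)))
      (codeTerm (numT m)))) (codeFormula ψ)))) := by
    refine Primrec₂.natPair.comp (Primrec.const 3) (Primrec₂.natPair.comp (Primrec.const 2)
      (Primrec₂.natPair.comp (Primrec₂.natPair.comp (Primrec.const 1)
        (Primrec₂.natPair.comp (Primrec.const _) primrec_numT)) (Primrec.const _)))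
  exact this.of_eq fun m => rfl

lemma realize_sent (ψ : Language.ring.BoundedFormula Empty 1) (m : ℕ) :
    R ⊨ sent ψ m ↔ ψ.Realize (default : Empty → R) (fun _ => ((m : ℕ) : R)) := by
  have h1 : (R ⊨ sent ψ m) ↔ ∀ x : R, (x = ((m : ℕ) : R) →
      ψ.Realize (default : Empty → R) (Fin.snoc default x)) := by
    unfold sent
    rw [Sentence.Realize, Formula.Realize, BoundedFormula.realize_all]
    refine forall_congr' fun x => ?_
    rw [BoundedFormula.realize_imp]
    have : BoundedFormula.Realize (BoundedFormula.equal (Term.var (Sum.inr 0)) (numT m))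
        (default : Empty → R) (Fin.snoc default x) ↔ x = ((m : ℕ) : R) := by
      show Term.realize _ _ = Term.realize _ _ ↔ _
      rw [realize_numT]
      rfl
    rw [this]
  rw [h1]
  have h2 : ∀ x : R, (Fin.snoc (default : Fin 0 → R) x : Fin 1 → R) = fun _ => x := by
    intro x
    funext i
    have : i = Fin.last 0 := Subsingleton.elim (α := Fin 1) _ _
    rw [this, Fin.snoc_last]
  simp only [h2]
  constructor
  · intro h; exact h _ rfl
  · rintro h x rfl; exact h

end

/-- A ring of characteristic zero in which the natural numbers are defined by Robinson's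
condition, and total nonnegativity by squares, has an undecidable theory. -/
theorem undecidable {R : Type} [CommRing R] [CharZero R] {Γ : Type} {φ : Γ → R →+* ℝ} {l : ℕ}
    (hl : ∀ x : R, NN φ x ↔ ∃ z : R, x = z * z ∨ (l : R) * x = z * z)
    (hN : ∀ n : R, NatCond φ n ↔ ∃ k : ℕ, n = k) : ¬ HasDecidableTheory R := by
  let _ : CompatibleRing R := compatibleRingOfRing R
  rintro ⟨d, hd, hd2⟩
  obtain ⟨ψ₀, hψ₀⟩ := kk_formula hl hN
  let ψ : Language.ring.BoundedFormula Empty 1 :=
    BoundedFormula.relabel (n := 1) (k := 0) (fun _ : Unit => Sum.inr (0 : Fin 1)) ψ₀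
  have h1 : ∀ m : ℕ, KK m ↔ d (godel (sent ψ m)) = true := by
    intro m
    rw [hd2, ← hψ₀ m]
    refine Iff.symm ((realize_sent ψ m).trans ?_)
    show BoundedFormula.Realize (BoundedFormula.relabel _ ψ₀) _ _ ↔ _
    rw [BoundedFormula.realize_relabel, Formula.Realize, iff_eq_eq]
    congr 1
    exact Subsingleton.elim _ _
  apply kk_not_computable
  rw [ComputablePred.computable_iff]
  exact ⟨fun m => d (godel (sent ψ m)), hd.comp (primrec_sent ψ).to_comp,
    funext fun m => propext (h1 m)⟩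

end Pool.Agent.Work.MP_96f494_lc
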