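import Pool.Agent.Work.MP_96f494_lc.Conc
import Pool.Agent.Work.MP_96f494_lc.Undec

/-!
One formula defines the natural numbers in `Ztr σ`, for almost all `σ`.
-/

namespace Pool.Agent.Work.MP_96f494_lc.Uni

open FirstOrder FirstOrder.Language FirstOrder.Ring MeasureTheory

/-! ### Uniformly definable relations on a family of rings -/

section Def

variable {ι : Type} {R : ι → Type} [∀ i, CommRing (R i)] [∀ i, CompatibleRing (R i)] {α β : Type}

/-- Families of functions given by one term. -/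
def TD (f : ∀ i, (α → R i) → R i) : Prop :=
  ∃ t : Language.ring.Term α, ∀ i v, t.realize v = f i v

/-- Families of relations given by one formula. -/
def FD (P : ∀ i, (α → R i) → Prop) : Prop :=
  ∃ φ : Language.ring.Formula α, ∀ i v, φ.Realize v ↔ P i v

lemma TD.var (a : α) : TD (fun i (v : α → R i) => v a) := ⟨Term.var a, fun _ _ => rfl⟩

lemma TD.add {f g : ∀ i, (α → R i) → R i} (hf : TD f) (hg : TD g) :
    TD (fun i v => f i v + g i v) := by
  obtain ⟨s, hs⟩ := hf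
  obtain ⟨t, ht⟩ := hg
  exact ⟨s + t, fun i v => by rw [realize_add, hs, ht]⟩

lemma TD.mul {f g : ∀ i, (α → R i) → R i} (hf : TD f) (hg : TD g) :
    TD (fun i v => f i v * g i v) := by
  obtain ⟨s, hs⟩ := hf
  obtain ⟨t, ht⟩ := hg
  exact ⟨s * t, fun i v => by rw [realize_mul, hs, ht]⟩

lemma TD.neg {f : ∀ i, (α → R i) → R i} (hf : TD f) : TD (fun i v => -f i v) := by
  obtain ⟨s, hs⟩ := hf
  exact ⟨-s, fun i v => by rw [realize_neg, hs]⟩

lemma TD.sub {f g : ∀ i, (α → R i) → R i} (hf : TD f) (hg : TD g) :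
    TD (fun i v => f i v - g i v) := by
  simp only [sub_eq_add_neg]
  exact hf.add hg.neg

lemma TD.zero : TD (fun i (_ : α → R i) => (0 : R i)) := ⟨0, fun _ v => realize_zero v⟩
lemma TD.one : TD (fun i (_ : α → R i) => (1 : R i)) := ⟨1, fun _ v => realize_one v⟩

lemma TD.four : TD (fun i (_ : α → R i) => (4 : R i)) := by
  obtain ⟨t, ht⟩ := ((TD.one.add TD.one).add (TD.one.add TD.one) :
    TD (fun i (_ : α → R i) => ((1 : R i) + 1) + (1 + 1)))
  exact ⟨t, fun i v => by rw [ht]; norm_num⟩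

lemma TD.lift {f : ∀ i, (α → R i) → R i} (hf : TD f) :
    TD (fun i (w : α ⊕ β → R i) => f i (w ∘ Sum.inl)) := by
  obtain ⟨s, hs⟩ := hf
  exact ⟨s.relabel Sum.inl, fun i w => by rw [Term.realize_relabel, hs]⟩

lemma FD.congr {P Q : ∀ i, (α → R i) → Prop} (h : FD P) (hPQ : ∀ i v, P i v ↔ Q i v) : FD Q := by
  obtain ⟨φ, hφ⟩ := h
  exact ⟨φ, fun i v => (hφ i v).trans (hPQ i v)⟩

lemma FD.eq {f g : ∀ i, (α → R i) → R i} (hf : TD f) (hg : TD g) :
    FD (fun i v => f i v = g i v) := by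
  obtain ⟨s, hs⟩ := hf
  obtain ⟨t, ht⟩ := hg
  exact ⟨s.equal t, fun i v => by rw [Formula.realize_equal, hs, ht]⟩

lemma FD.and {P Q : ∀ i, (α → R i) → Prop} (hP : FD P) (hQ : FD Q) :
    FD (fun i v => P i v ∧ Q i v) := by
  obtain ⟨s, hs⟩ := hP
  obtain ⟨t, ht⟩ := hQ
  exact ⟨s ⊓ t, fun i v => by rw [Formula.realize_inf, hs, ht]⟩

lemma FD.not {P : ∀ i, (α → R i) → Prop} (hP : FD P) : FD (fun i v => ¬ P i v) := by
  obtain ⟨s, hs⟩ := hP
  exact ⟨s.not, fun i v => by rw [Formula.realize_not, hs]⟩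

lemma FD.imp {P Q : ∀ i, (α → R i) → Prop} (hP : FD P) (hQ : FD Q) :
    FD (fun i v => P i v → Q i v) := by
  obtain ⟨s, hs⟩ := hP
  obtain ⟨t, ht⟩ := hQ
  exact ⟨s.imp t, fun i v => by rw [Formula.realize_imp, hs, ht]⟩

lemma FD.or {P Q : ∀ i, (α → R i) → Prop} (hP : FD P) (hQ : FD Q) :
    FD (fun i v => P i v ∨ Q i v) :=
  (hP.not.imp hQ).congr fun i v => by tauto

lemma FD.ex1 {P : ∀ i, (α → R i) → R i → Prop}
    (h : FD (fun i (w : α ⊕ Unit → R i) => P i (w ∘ Sum.inl) (w (Sum.inr ())))) :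
    FD (fun i v => ∃ x, P i v x) := by
  obtain ⟨φ, hφ⟩ := h
  refine ⟨φ.iExs Unit, fun i v => ?_⟩
  rw [Formula.realize_iExs]
  constructor
  · rintro ⟨t, ht⟩
    rw [hφ] at ht
    exact ⟨_, ht⟩
  · rintro ⟨x, hx⟩
    refine ⟨fun _ => x, ?_⟩
    rw [hφ]
    exact hx

lemma FD.all1 {P : ∀ i, (α → R i) → R i → Prop}
    (h : FD (fun i (w : α ⊕ Unit → R i) => P i (w ∘ Sum.inl) (w (Sum.inr ())))) :
    FD (fun i v => ∀ x, P i v x) := by
  have h1 : FD (fun i v => ¬ ∃ x, ¬ P i v x) :=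
    (FD.ex1 (P := fun i v x => ¬ P i v x) h.not).not
  exact h1.congr fun i v => by push Not; rfl

lemma FD.dvd {f g : ∀ i, (α → R i) → R i} (hf : TD f) (hg : TD g) :
    FD (fun i v => f i v ∣ g i v) := by
  have h1 : FD (fun i v => ∃ c, g i v = f i v * c) :=
    FD.ex1 (P := fun i v c => g i v = f i v * c) (FD.eq hg.lift (hf.lift.mul (TD.var _)))
  exact h1

end Def

/-! ### Robinson's condition, with any relation in place of total nonnegativity -/

section Cond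

variable {R : Type*} [CommRing R]

/-- `x` times a nonzero square is a sum of four squares. -/
def S4 (x : R) : Prop :=
  ∃ d a b c e : R, d ≠ 0 ∧ d * d * x = a * a + b * b + c * c + e * e

/-- The set coded by the parameters. -/
def TT (u v m h b t : R) : Prop :=
  S4 t ∧ S4 (b - t) ∧ ∃ x, S4 x ∧ S4 (u - v * x) ∧ (1 + m * (x + 1)) ∣ (h - t)

/-- The defining condition of the natural numbers. -/
def NatCond (n : R) : Prop :=
  ∃ u v m h b : R, S4 v ∧ v ≠ 0 ∧ S4 (4 * v - u) ∧ 4 * v - u ≠ 0 ∧ S4 (m - b) ∧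
    m - b ≠ 0 ∧ TT u v m h b 0 ∧ ∀ t, TT u v m h b t → t = n ∨ TT u v m h b (t + 1)

lemma natCond_iff {Γ : Type*} {φ : Γ → R →+* ℝ} (h : ∀ x : R, NN φ x ↔ S4 x) (n : R) :
    MP_96f494_lc.NatCond φ n ↔ NatCond n := by
  unfold MP_96f494_lc.NatCond NatCond MP_96f494_lc.TT TT
  simp only [h]

end Cond

section

variable {ι : Type} {R : ι → Type} [∀ i, CommRing (R i)] [∀ i, CompatibleRing (R i)] {α : Type}

lemma FD.s4 {f : ∀ i, (α → R i) → R i} (hf : TD f) : FD (fun i v => S4 (f i v)) := by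
  have key : FD (fun i (w : ((((α ⊕ Unit) ⊕ Unit) ⊕ Unit) ⊕ Unit) ⊕ Unit → R i) =>
      w (Sum.inl (Sum.inl (Sum.inl (Sum.inl (Sum.inr ()))))) ≠ 0 ∧
      w (Sum.inl (Sum.inl (Sum.inl (Sum.inl (Sum.inr ()))))) *
        w (Sum.inl (Sum.inl (Sum.inl (Sum.inl (Sum.inr ()))))) *
        f i (((((w ∘ Sum.inl) ∘ Sum.inl) ∘ Sum.inl) ∘ Sum.inl) ∘ Sum.inl) =
      w (Sum.inl (Sum.inl (Sum.inl (Sum.inr ())))) * w (Sum.inl (Sum.inl (Sum.inl (Sum.inr ()))))
      + w (Sum.inl (Sum.inl (Sum.inr ()))) * w (Sum.inl (Sum.inl (Sum.inr ())))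
      + w (Sum.inl (Sum.inr ())) * w (Sum.inl (Sum.inr ()))
      + w (Sum.inr ()) * w (Sum.inr ())) := by
    have hN := (((((hf.lift (β := Unit)).lift (β := Unit)).lift (β := Unit)).lift
      (β := Unit)).lift (β := Unit))
    exact (FD.eq (TD.var _) TD.zero).not.and
      (FD.eq (((TD.var _).mul (TD.var _)).mul hN)
        (((((TD.var _).mul (TD.var _)).add ((TD.var _).mul (TD.var _))).add
          ((TD.var _).mul (TD.var _))).add ((TD.var _).mul (TD.var _))))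
  exact FD.ex1 (FD.ex1 (FD.ex1 (FD.ex1 (FD.ex1 key))))

lemma FD.tt {u v m h b t : ∀ i, (α → R i) → R i} (hu : TD u) (hv : TD v) (hm : TD m) (hh : TD h)
    (hb : TD b) (ht : TD t) :
    FD (fun i w => TT (u i w) (v i w) (m i w) (h i w) (b i w) (t i w)) := by
  have h1 : FD (fun i w => S4 (t i w) ∧ S4 (b i w - t i w) ∧ ∃ x, S4 x ∧
      S4 (u i w - v i w * x) ∧ (1 + m i w * (x + 1)) ∣ (h i w - t i w)) := by
    refine (FD.s4 ht).and ((FD.s4 (hb.sub ht)).and ?_)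
    refine FD.ex1 (P := fun i w x => S4 x ∧
      S4 (u i w - v i w * x) ∧ (1 + m i w * (x + 1)) ∣ (h i w - t i w)) ?_
    have hx : TD (fun i (w : α ⊕ Unit → R i) => w (Sum.inr ())) := TD.var _
    exact (FD.s4 hx).and ((FD.s4 (hu.lift.sub (hv.lift.mul hx))).and
      (FD.dvd (TD.one.add (hm.lift.mul (hx.add TD.one))) (hh.lift.sub ht.lift)))
  exact h1

lemma FD.natCond {n : ∀ i, (α → R i) → R i} (hn : TD n) : FD (fun i w => NatCond (n i w)) := by
  have key : FD (fun i (w : ((((α ⊕ Unit) ⊕ Unit) ⊕ Unit) ⊕ Unit) ⊕ Unit → R i) =>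
      S4 (w (Sum.inl (Sum.inl (Sum.inl (Sum.inr ()))))) ∧
      w (Sum.inl (Sum.inl (Sum.inl (Sum.inr ())))) ≠ 0 ∧
      S4 (4 * w (Sum.inl (Sum.inl (Sum.inl (Sum.inr ()))))
        - w (Sum.inl (Sum.inl (Sum.inl (Sum.inl (Sum.inr ())))))) ∧
      4 * w (Sum.inl (Sum.inl (Sum.inl (Sum.inr ()))))
        - w (Sum.inl (Sum.inl (Sum.inl (Sum.inl (Sum.inr ()))))) ≠ 0 ∧
      S4 (w (Sum.inl (Sum.inl (Sum.inr ()))) - w (Sum.inr ())) ∧
      w (Sum.inl (Sum.inl (Sum.inr ()))) - w (Sum.inr ()) ≠ 0 ∧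
      TT (w (Sum.inl (Sum.inl (Sum.inl (Sum.inl (Sum.inr ()))))))
        (w (Sum.inl (Sum.inl (Sum.inl (Sum.inr ())))))
        (w (Sum.inl (Sum.inl (Sum.inr ())))) (w (Sum.inl (Sum.inr ()))) (w (Sum.inr ())) 0 ∧
      ∀ t, TT (w (Sum.inl (Sum.inl (Sum.inl (Sum.inl (Sum.inr ()))))))
        (w (Sum.inl (Sum.inl (Sum.inl (Sum.inr ())))))
        (w (Sum.inl (Sum.inl (Sum.inr ())))) (w (Sum.inl (Sum.inr ()))) (w (Sum.inr ())) t →
        t = n i (((((w ∘ Sum.inl) ∘ Sum.inl) ∘ Sum.inl) ∘ Sum.inl) ∘ Sum.inl) ∨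
        TT (w (Sum.inl (Sum.inl (Sum.inl (Sum.inl (Sum.inr ()))))))
        (w (Sum.inl (Sum.inl (Sum.inl (Sum.inr ())))))
        (w (Sum.inl (Sum.inl (Sum.inr ())))) (w (Sum.inl (Sum.inr ()))) (w (Sum.inr ()))
          (t + 1)) := by
    refine (FD.s4 (TD.var _)).and ((FD.eq (TD.var _) TD.zero).not.and
      ((FD.s4 ((TD.four.mul (TD.var _)).sub (TD.var _))).and
      ((FD.eq ((TD.four.mul (TD.var _)).sub (TD.var _)) TD.zero).not.and
      ((FD.s4 ((TD.var _).sub (TD.var _))).and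
      ((FD.eq ((TD.var _).sub (TD.var _)) TD.zero).not.and
      ((FD.tt (TD.var _) (TD.var _) (TD.var _) (TD.var _) (TD.var _) TD.zero).and ?_))))))
    refine FD.all1 (P := fun i w t => TT (w (Sum.inl (Sum.inl (Sum.inl (Sum.inl (Sum.inr ()))))))
        (w (Sum.inl (Sum.inl (Sum.inl (Sum.inr ())))))
        (w (Sum.inl (Sum.inl (Sum.inr ())))) (w (Sum.inl (Sum.inr ()))) (w (Sum.inr ())) t →
        t = n i (((((w ∘ Sum.inl) ∘ Sum.inl) ∘ Sum.inl) ∘ Sum.inl) ∘ Sum.inl) ∨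
        TT (w (Sum.inl (Sum.inl (Sum.inl (Sum.inl (Sum.inr ()))))))
        (w (Sum.inl (Sum.inl (Sum.inl (Sum.inr ())))))
        (w (Sum.inl (Sum.inl (Sum.inr ())))) (w (Sum.inl (Sum.inr ()))) (w (Sum.inr ()))
          (t + 1)) ?_
    have hN := (((((hn.lift (β := Unit)).lift (β := Unit)).lift (β := Unit)).lift
      (β := Unit)).lift (β := Unit)).lift (β := Unit)
    exact (FD.tt (TD.var _) (TD.var _) (TD.var _) (TD.var _) (TD.var _) (TD.var _)).imp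
      ((FD.eq (TD.var _) hN).or
      (FD.tt (TD.var _) (TD.var _) (TD.var _) (TD.var _) (TD.var _) ((TD.var _).add TD.one)))
  exact FD.ex1 (FD.ex1 (FD.ex1 (FD.ex1 (FD.ex1 key))))

end

/-! ### Total nonnegativity in `Ztr σ` -/

lemma nn_iff_s4 (σ : Qtr ≃ₐ[ℚ] Qtr) (l : ℕ) (hl0 : (l : Ztr σ) ≠ 0)
    (hl : ∀ x : Ztr σ, NN (phi σ) x ↔ ∃ z : Ztr σ, x = z * z ∨ (l : Ztr σ) * x = z * z)
    (x : Ztr σ) : NN (phi σ) x ↔ S4 x := by
  constructor
  · intro hx
    obtain ⟨z, hz | hz⟩ := (hl x).1 hx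
    · exact ⟨1, z, 0, 0, 0, one_ne_zero, by rw [hz]; ring⟩
    · obtain ⟨a, b, c, e, h4⟩ := Nat.sum_four_squares l
      have h5 : (l : Ztr σ) = (a : Ztr σ) ^ 2 + (b : Ztr σ) ^ 2 + (c : Ztr σ) ^ 2
          + (e : Ztr σ) ^ 2 := by
        rw [← h4]; push_cast; ring
      refine ⟨l, a * z, b * z, c * z, e * z, hl0, ?_⟩
      calc (l : Ztr σ) * l * x = l * (l * x) := by ring
        _ = l * (z * z) := by rw [hz]
        _ = _ := by rw [h5]; ring
  · rintro ⟨d, a, b, c, e, hd, h⟩ g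
    have h1 := congrArg (phi σ g) h
    simp only [map_mul, map_add] at h1
    have h2 : 0 < phi σ g d * phi σ g d :=
      mul_self_pos.2 fun h4 => hd (phi_inj σ g d h4)
    have h3 : 0 ≤ phi σ g d * phi σ g d * phi σ g x := by
      rw [h1]
      exact add_nonneg (add_nonneg (add_nonneg (mul_self_nonneg _) (mul_self_nonneg _))
        (mul_self_nonneg _)) (mul_self_nonneg _)
    exact nonneg_of_mul_nonneg_right h3 h2

/-- For almost all `σ`, the natural numbers are defined in `Ztr σ` by Robinson's condition, with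
total nonnegativity expressed by sums of four squares. -/
theorem ae_natCond : ∀ᵐ σ ∂haarG, ∀ n : Ztr σ, NatCond n ↔ ∃ k : ℕ, n = k := by
  filter_upwards [ae_freq, ae_move] with σ h1 h2
  obtain ⟨l, hl, hl2⟩ := h2
  have h3 := phi_nn σ l hl hl2
  have hl0 : (l : Ztr σ) ≠ 0 := Nat.cast_ne_zero.2 hl.ne_zero
  intro n
  rw [← natCond_iff (nn_iff_s4 σ l hl0 h3)]
  constructor
  · exact natCond_imp (phi_inj σ) (phi_small σ) (phi_fin σ) n
  · rintro ⟨k, rfl⟩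
    exact natCond_of (phi_inj σ) (phi_small σ) (exists_nat_mul σ) (phi_fin σ) (phi_large σ h1) k

/-- One formula defines the natural numbers in `Ztr σ` for almost all `σ`. -/
theorem ae_formula : ∃ ψ : Language.ring.Formula Unit, ∀ᵐ σ ∂haarG, ∀ x : Ztr σ,
    (@Formula.Realize Language.ring (Ztr σ) (compatibleRingOfRing (Ztr σ)).toStructure
      Unit ψ (fun _ => x)) ↔ ∃ n : ℕ, x = n := by
  let _ : ∀ σ : Qtr ≃ₐ[ℚ] Qtr, CompatibleRing (Ztr σ) := fun σ => compatibleRingOfRing (Ztr σ)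
  obtain ⟨ψ, hψ⟩ := FD.natCond (ι := Qtr ≃ₐ[ℚ] Qtr) (R := fun σ => Ztr σ) (α := Unit)
    (TD.var ())
  refine ⟨ψ, ?_⟩
  filter_upwards [ae_natCond] with σ hσ x
  exact (hψ σ (fun _ => x)).trans (hσ x)

end Pool.Agent.Work.MP_96f494_lc.Uni
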